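import Pool.Agent.Lib.MP_1a91b9_ntE.C.DefE

/-!
# MP_1a91b9_nt (TwistDensity), even classes, part C: classes modulo squares and modulo 8
-/

set_option autoImplicit false
set_option linter.unusedSectionVars false
set_option linter.unusedVariables false
set_option linter.unusedSimpArgs false

namespace Pool.Agent.Lib.MP_1a91b9_ntE.C

open NumberField Finset WithZero IsDedekindDomain Pool.Agent.Lib.MP_1a91b9_ntT
open Pool.Agent.Lib.MP_1a91b9_ntH (F4 wO s3 Pq qd DD dl red half qs sgz half_spec red_eq_zero Nz_coords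
  cp eq_cp Nz Nz_mul red_w)
open Pool.Agent.Lib.MP_1a91b9_ntH.C (GLoc ee Sq nu_four_le)
open Pool.Agent.Lib.MP_1a91b9_ntH.C.Sel (pv prime_two io Cl val_two pv_lt pv_one gp stc dlc_gp
  two_mem sum_a sum_b of_mul_a of_mul_b add_a add_b)
open Pool.Agent.Lib.MP_1a91b9_ntH2 (dlc tw)

noncomputable section

/-! ### the norm modulo 8 -/

theorem odd_Nz {x : 𝓞 K} (h : ¬ (2 : 𝓞 K) ∣ x) : Nz x % 2 = 1 := by
  have h1 := eq_cp x
  have h2 := Nz_coords (cp x).1 (cp x).2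
  rw [← h1] at h2
  have h3 : ¬ (Even (cp x).1 ∧ Even (cp x).2) := by
    rintro ⟨⟨a, ha⟩, ⟨b, hb⟩⟩
    apply h
    refine ⟨a + b * wO, ?_⟩
    rw [h1, ha, hb]
    push_cast
    ring
  have h4 : Odd ((cp x).1 ^ 2 - (cp x).1 * (cp x).2 + (cp x).2 ^ 2) := by
    rcases Int.even_or_odd (cp x).1 with ha | ha <;> rcases Int.even_or_odd (cp x).2 with hb | hb
    · exact absurd ⟨ha, hb⟩ h3
    · have e1 : Even ((cp x).1 ^ 2) := ha.pow_of_ne_zero two_ne_zero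
      have e2 : Even ((cp x).1 * (cp x).2) := ha.mul_right _
      exact (e1.sub e2).add_odd hb.pow
    · have e1 : Even ((cp x).2 ^ 2) := hb.pow_of_ne_zero two_ne_zero
      have e2 : Even ((cp x).1 * (cp x).2) := hb.mul_left _
      exact (ha.pow.sub_even e2).add_even e1
    · exact (ha.pow.sub_odd (ha.mul hb)).add_odd hb.pow
  rw [← h2] at h4
  have h5 : Odd (Nz x) := by exact_mod_cast h4
  exact Nat.odd_iff.1 h5

theorem tw2_mul' {x y : 𝓞 K} (hx : ¬ (2 : 𝓞 K) ∣ x) (hy : ¬ (2 : 𝓞 K) ∣ y) :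
    tw2 (x * y) = tw2 x + tw2 y := by
  unfold tw2
  rw [Nz_mul]
  exact t8_mul (odd_Nz hx) (odd_Nz hy)

theorem Cl.odd {x : 𝓞 K} {c : F4} (h : Cl x c) : ¬ (2 : 𝓞 K) ∣ x := by
  obtain ⟨y, rfl, -⟩ := h
  intro h1
  have h2 : (2 : 𝓞 K) ∣ 1 := by
    have h3 := dvd_sub h1 (dvd_mul_right 2 y)
    rwa [add_sub_cancel_right] at h3
  exact prime_two.not_isUnit (isUnit_of_dvd_one h2)

/-- an odd element which is a square at `2` has a norm which is `±1` modulo `8` -/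
theorem sq_tw2 {x : 𝓞 K} (hx : ¬ (2 : 𝓞 K) ∣ x)
    (h : Sq ((pv 2 prime_two).valuation K) (x : K)) : tw2 x = 0 := by
  have h4 : (pv 2 prime_two).valuation K (4 : K) ≤ 1 := (nu_four_le val_two).le
  obtain ⟨b, hb, hb'⟩ := h
  have hvx := pv_one prime_two hx
  have h1 : (pv 2 prime_two).valuation K ((x : K) / b ^ 2) = 1 :=
    Pool.Agent.Lib.MP_1a91b9_ntH.C.nu_one h4 hb'
  have hvb : (pv 2 prime_two).valuation K b = 1 := by
    have hb0 : (pv 2 prime_two).valuation K b ≠ 0 := (Valuation.ne_zero_iff _).2 hb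
    rw [map_div₀, map_pow, hvx, div_eq_one_iff_eq (pow_ne_zero 2 hb0)] at h1
    exact (pow_eq_one_iff_of_nonneg zero_le two_ne_zero).1 h1.symm
  obtain ⟨n, ⟨d, hd⟩, hnd⟩ :=
    HeightOneSpectrum.exists_primeCompl_mul_eq_of_integer (pv 2 prime_two) b hvb.le
  have hnd' : b * (d : K) = (n : K) := hnd
  have hd' : ¬ (2 : 𝓞 K) ∣ d := fun hh => hd (Ideal.mem_span_singleton.2 hh)
  have hvd := pv_one prime_two hd'
  have hn : ¬ (2 : 𝓞 K) ∣ n := by
    rw [← pv_lt prime_two, ← hnd', map_mul, hvb, hvd, one_mul]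
    exact lt_irrefl _
  have h2 : (8 : 𝓞 K) ∣ x * d ^ 2 - n ^ 2 := by
    have e8 : (8 : 𝓞 K) = 2 ^ 3 := by norm_num
    rw [e8, ← Pool.Agent.Lib.MP_1a91b9_ntH.C.val_le_sq prime_two two_mem]
    have h3 : ((x * d ^ 2 - n ^ 2 : 𝓞 K) : K) = ((x : K) / b ^ 2 - 1) * (b * d) ^ 2 := by
      have e1 : ((x * d ^ 2 - n ^ 2 : 𝓞 K) : K) = (x : K) * (d : K) ^ 2 - (n : K) ^ 2 := by
        push_cast
        rfl
      rw [e1, ← hnd']
      field_simp
    rw [h3, map_mul, map_pow, map_mul, hvb, hvd, one_mul, one_pow, mul_one]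
    by_cases h0 : (x : K) / b ^ 2 - 1 = 0
    · rw [h0, map_zero]
      exact zero_le
    · obtain ⟨m, hm⟩ := Pool.Agent.Lib.MP_1a91b9_ntH.C.exists_nu ((pv 2 prime_two).valuation K) h0
      rw [hm, Pool.Agent.Lib.MP_1a91b9_ntH.C.nu_four val_two, exp_lt_exp] at hb'
      rw [hm, exp_le_exp]
      push_cast
      omega
  have h3 := tw2_congr h2
  have hd2 : ¬ (2 : 𝓞 K) ∣ d ^ 2 := fun hh => hd' (prime_two.dvd_of_dvd_pow hh)
  have hz : ∀ t : ZMod 2, t + t = 0 := by decide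
  rw [tw2_mul' hx hd2, pow_two, pow_two, tw2_mul' hd' hd', tw2_mul' hn hn, hz, hz, add_zero] at h3
  exact h3

theorem tw2_neg_one : tw2 (-1) = 0 := by
  have h := Nz_coords (-1) 0
  have e : (((-1 : ℤ) : 𝓞 K) + ((0 : ℤ) : 𝓞 K) * wO) = -1 := by
    push_cast
    ring
  rw [e] at h
  have h1 : Nz (-1 : 𝓞 K) = 1 := by
    have : ((Nz (-1 : 𝓞 K) : ℕ) : ℤ) = 1 := by rw [h]; norm_num
    exact_mod_cast this
  unfold tw2
  rw [h1]
  rfl

theorem tw2_s3 : tw2 s3 = 1 := by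
  have h := Nz_coords 1 2
  have e : (((1 : ℤ) : 𝓞 K) + ((2 : ℤ) : 𝓞 K) * wO) = s3 := by
    unfold s3
    push_cast
    ring
  rw [e] at h
  have h1 : Nz s3 = 3 := by
    have : ((Nz s3 : ℕ) : ℤ) = 3 := by rw [h]; norm_num
    exact_mod_cast this
  unfold tw2
  rw [h1]
  rfl

theorem tw2_ep : tw2 (1 + 4 * wO) = 1 := by
  have h := Nz_coords 1 4
  have e : (((1 : ℤ) : 𝓞 K) + ((4 : ℤ) : 𝓞 K) * wO) = 1 + 4 * wO := by
    push_cast
    ring
  rw [e] at h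
  have h1 : Nz (1 + 4 * wO) = 13 := by
    have : ((Nz (1 + 4 * wO) : ℕ) : ℤ) = 13 := by rw [h]; norm_num
    exact_mod_cast this
  unfold tw2
  rw [h1]
  rfl

/-! ### the class modulo squares at `2` -/

/-- `x = 1 + 2 y`, `y = c` modulo `2`, and `x` is `(-1)^c.a √-3 ^ c.b (1 + 4 w)^f` modulo squares
at `2`. -/
def Cf (x : 𝓞 K) (c : F4) (f : ZMod 2) : Prop := Cl x c ∧ F4.tr c + tw2 x = f

theorem tr_add' (x y : F4) : F4.tr (x + y) = F4.tr x + F4.tr y := by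
  revert x y
  decide

theorem Cf.mul {x y : 𝓞 K} {c d : F4} {f g : ZMod 2} (h : Cf x c f) (h' : Cf y d g) :
    Cf (x * y) (c + d) (f + g) := by
  refine ⟨h.1.mul h'.1, ?_⟩
  rw [tw2_mul' (Cl.odd h.1) (Cl.odd h'.1), tr_add', ← h.2, ← h'.2]
  ring

theorem Cf.one : Cf 1 0 0 := ⟨Cl.one, by rw [tw2_one]; decide⟩

theorem Cf.neg_one : Cf (-1) 1 0 := ⟨Cl.neg_one, by rw [tw2_neg_one]; decide⟩

theorem Cf.s3 : Cf s3 F4.w 0 := ⟨Cl.s3, by rw [tw2_s3]; decide⟩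

theorem Cf.ep : Cf (1 + 4 * wO) 0 1 := by
  refine ⟨⟨2 * wO, by ring, ?_⟩, by rw [tw2_ep]; decide⟩
  have h2 : (2 : F4) = 0 := by decide
  rw [map_mul, map_ofNat, h2, zero_mul]

/-- the exponent of `1 + 4 w` in the class of `q` at `2` -/
def fq (q : Pq) : ZMod 2 := F4.tr (qd.a q) + qE.g q

theorem Cf.prime (q : Pq) : Cf q.1 (qd.a q) (fq q) := ⟨Cl.prime q, rfl⟩

theorem Cf.pow {x : 𝓞 K} {c : F4} {f : ZMod 2} (h : Cf x c f) (e : ZMod 2) :
    Cf (x ^ e.val) (F4.of e * c) (e * f) := by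
  have h0 : ∀ e : ZMod 2, e = 0 ∨ e = 1 := by decide
  rcases h0 e with rfl | rfl
  · rw [ZMod.val_zero, pow_zero, zero_mul]
    have h1 : F4.of 0 * c = 0 := by
      revert c
      intro c _
      generalize c = c'
      revert c'
      decide
    rw [h1]
    exact Cf.one
  · have h1 : ((1 : ZMod 2)).val = 1 := rfl
    rw [h1, pow_one, one_mul]
    have h2 : F4.of 1 * c = c := one_mul c
    rw [h2]
    exact h

theorem Cf.prod {S : Finset Pq} {f : Pq → 𝓞 K} {g : Pq → F4} {k : Pq → ZMod 2}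
    (h : ∀ q ∈ S, Cf (f q) (g q) (k q)) : Cf (∏ q ∈ S, f q) (∑ q ∈ S, g q) (∑ q ∈ S, k q) := by
  classical
  induction S using Finset.induction_on with
  | empty => exact Cf.one
  | insert a S ha ih =>
    rw [prod_insert ha, sum_insert ha, sum_insert ha]
    exact (h a (mem_insert_self a S)).mul (ih fun q hq => h q (mem_insert_of_mem hq))

theorem Cf.gp (S : Finset Pq) (n k : ZMod 2) (V : Pq → ZMod 2) :
    Cf (gp S n k V) (F4.of n * 1 + F4.of k * F4.w + ∑ q ∈ S, F4.of (V q) * qd.a q)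
      (∑ q ∈ S, V q * fq q) := by
  have h := ((Cf.neg_one.pow n).mul (Cf.s3.pow k)).mul
    (Cf.prod (S := S) fun q _ => (Cf.prime q).pow (V q))
  rwa [mul_zero, mul_zero, zero_add, zero_add] at h

theorem Cf.dlc (c : F4) (S : Finset Pq) : Cf (dlc c S) c (∑ q ∈ S, fq q) := by
  have h1 : Cl (Pool.Agent.Lib.MP_1a91b9_ntH2.dlc c S) c :=
    Pool.Agent.Lib.MP_1a91b9_ntH2.C.Cr.dlc c S
  refine ⟨h1, ?_⟩
  have h2 := Cf.gp S (qd.A S + c).a (qd.A S + c).b (fun _ => 1)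
  rw [← dlc_gp] at h2
  have h3 := h2.2
  have h4 : F4.of (qd.A S + c).a * 1 + F4.of (qd.A S + c).b * F4.w + ∑ q ∈ S, F4.of 1 * qd.a q =
      c := by
    have h5 : ∑ q ∈ S, F4.of 1 * qd.a q = qd.A S := sum_congr rfl fun q _ => one_mul _
    have h6 : ∀ x c : F4, F4.of (x + c).a * 1 + F4.of (x + c).b * F4.w + x = c := by decide
    rw [h5]
    exact h6 _ _
  rw [h4] at h3
  rw [h3]
  exact sum_congr rfl fun q _ => one_mul _

/-- a square at `2` has trivial class -/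
theorem Cf.of_sq {x : 𝓞 K} {c : F4} {f : ZMod 2} (h : Cf x c f)
    (hs : Sq ((pv 2 prime_two).valuation K) (x : K)) : c = 0 ∧ f = 0 := by
  have h1 : c = 0 := Pool.Agent.Lib.MP_1a91b9_ntH2.C.cr_of_cl_zero two_mem h.1
    (Pool.Agent.Lib.MP_1a91b9_ntH.C.Sq.cl hs)
  refine ⟨h1, ?_⟩
  rw [← h.2, h1, sq_tw2 (Cl.odd h.1) hs]
  decide

end

end Pool.Agent.Lib.MP_1a91b9_ntE.C
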