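import Pool.Agent.Lib.MP_1a91b9_ntH2.C.SelP
import Pool.Agent.Lib.MP_1a91b9_ntE.R.Two

/-!
# MP_1a91b9_nt (TwistDensity), even classes, part C: the twisting element `2 dlc c S`, the classes of
the points of order two and of the points which are integral at `2`
-/

set_option autoImplicit false
set_option linter.unusedSectionVars false
set_option linter.unusedVariables false

namespace Pool.Agent.Lib.MP_1a91b9_ntE.C

open NumberField Finset WithZero IsDedekindDomain Pool.Agent.Lib.MP_1a91b9_ntT
open Pool.Agent.Lib.MP_1a91b9_ntH (F4 wO s3 Pq qd DD dl red half qs sgz)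
open Pool.Agent.Lib.MP_1a91b9_ntH.C (GLoc ee Sq)
open Pool.Agent.Lib.MP_1a91b9_ntH.C.Sel (pv prime_two io)
open Pool.Agent.Lib.MP_1a91b9_ntH2 (dlc tw)

noncomputable section

/-- The twisting element of the squarefree integers divisible by `2`. -/
def dle (c : F4) (S : Finset Pq) : 𝓞 K := 2 * dlc c S

/-- The class of a point of order two of `y² = x³ + D³`. -/
def stg (D : 𝓞 K) (c : F4) (i : Fin 3) : 𝓞 K :=
  (D * s3) ^ (io c i).val * (-1) ^ (io (F4.w * F4.w * c) i).val

/-- The classes at `2` of the points whose first coordinate is a unit. -/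
def pe (c z : F4) (i : Fin 3) : 𝓞 K :=
  (-1) ^ (io (F4.w * z) i).val * s3 ^ (io z i).val * (1 + 4 * wO) ^ (io (F4.cj c * z) i).val

/-- The local condition at `2` (helper28: `loc_even2`). -/
def LocE2 : Prop := ∀ (c : F4) (S : Finset Pq) (a : Fin 3 → K), (∀ i, a i ≠ 0) →
  IsSquare (a 0 * a 1 * a 2) →
  GLoc ((pv 2 prime_two).valuation K) om ((dle c S : 𝓞 K) : K) a →
  ∃ l z : F4, ∀ i, Sq ((pv 2 prime_two).valuation K)
    (a i * ((stg (dle c S) l i : 𝓞 K) : K) * ((pe c z i : 𝓞 K) : K))

end

end Pool.Agent.Lib.MP_1a91b9_ntE.C
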