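import Pool.Agent.Lib.MP_1a91b9_ntE.C.ClE

/-!
# MP_1a91b9_nt (TwistDensity), even classes, part C: the local conditions outside of `2`
-/

set_option autoImplicit false
set_option linter.unusedSectionVars false
set_option linter.unusedVariables false
set_option linter.unusedSimpArgs false

namespace Pool.Agent.Lib.MP_1a91b9_ntE.C

open NumberField Finset WithZero IsDedekindDomain Pool.Agent.Lib.MP_1a91b9_ntT
open Pool.Agent.Lib.MP_1a91b9_ntH (F4 wO s3 Pq qd DD dl red half qs sgz qs_mul qs_neg_one qs_s3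
  not_dvd_s3 sgz_add sgz_inj om_quad)
open Pool.Agent.Lib.MP_1a91b9_ntH.C (GLoc ee Sq prod_split loc_bad val_ee val_one val_prime)
open Pool.Agent.Lib.MP_1a91b9_ntH.C.Sel (pv prime_two io Cl val_two pv_lt pv_one pv_self gp stc dlc_gp
  two_mem prime_s3 pow_three_sq gp_erase not_dvd_gp_erase not_dvd_of_unit val_four exp_pow exp_odd
  even_val sq_qs qs_pow qs_gp sgz_pow pv_eq decomp exists_par)
open Pool.Agent.Lib.MP_1a91b9_ntH2 (dlc tw)
open Pool.Agent.Lib.MP_1a91b9_ntH2.C (dlc_ne_zero)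

noncomputable section

/-! ### the classes of the points of order two -/

theorem dle_ne (c : F4) (S : Finset Pq) : dle c S ≠ 0 := mul_ne_zero two_ne_zero (dlc_ne_zero c S)

theorem coe_ne {x : 𝓞 K} (h : x ≠ 0) : (x : K) ≠ 0 := fun h0 => h (RingOfIntegers.ext h0)

theorem stgO_ne {D : 𝓞 K} (hD : D ≠ 0) (c : F4) (i : Fin 3) : stg D c i ≠ 0 :=
  mul_ne_zero (pow_ne_zero _ (mul_ne_zero hD prime_s3.ne_zero))
    (pow_ne_zero _ (neg_ne_zero.2 one_ne_zero))

theorem stgO_zero (D : 𝓞 K) (i : Fin 3) : stg D 0 i = 1 := by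
  have h1 : io 0 i = 0 := by
    revert i
    decide
  have h2 : io (F4.w * F4.w * 0) i = 0 := by
    revert i
    decide
  unfold stg
  rw [h1, h2, ZMod.val_zero, pow_zero, pow_zero, one_mul]

theorem ee_stg (D : 𝓞 K) (j i : Fin 3) (hij : i ≠ j) : ∃ r : K, r ≠ 0 ∧
    ee om (D : K) j - ee om (D : K) i = ((stg D (F4.w ^ (j : ℕ)) i : 𝓞 K) : K) * r ^ 2 := by
  have hom : om ≠ 0 := om_spec.ne_zero (by norm_num)
  have h1 : ((1 : ZMod 2)).val = 1 := rfl
  have h0 : ((0 : ZMod 2)).val = 0 := rfl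
  obtain ⟨E, hE⟩ : ∃ E : K, E = (D : K) := ⟨_, rfl⟩
  have k : ∀ (c : F4) (i : Fin 3) (x y : ZMod 2), io c i = x → io (F4.w * F4.w * c) i = y →
      ((stg D c i : 𝓞 K) : K) = (E * (1 + 2 * om)) ^ x.val * (-1) ^ y.val := by
    intro c i x y hx hy
    unfold stg
    rw [hx, hy, hE, ← Pool.Agent.Lib.MP_1a91b9_ntH.C.coe_s3]
    push_cast
    rfl
  rw [← hE]
  unfold ee
  fin_cases j <;> fin_cases i
  · exact absurd rfl hij
  · refine ⟨om, hom, ?_⟩
    show -(om ^ 0 * E) - -(om ^ 1 * E) = ((stg D (F4.w ^ 0) 1 : 𝓞 K) : K) * (om) ^ 2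
    rw [k _ _ 1 1 (by decide) (by decide)]
    simp only [h1, h0, pow_one, pow_zero]
    linear_combination (E * (2 * om - 1)) * om_quad
  · refine ⟨om ^ 2, pow_ne_zero 2 hom, ?_⟩
    show -(om ^ 0 * E) - -(om ^ 2 * E) = ((stg D (F4.w ^ 0) 2 : 𝓞 K) : K) * (om ^ 2) ^ 2
    rw [k _ _ 1 0 (by decide) (by decide)]
    simp only [h1, h0, pow_one, pow_zero]
    linear_combination (E * (-2 * om ^ 3 + om ^ 2 + om - 1)) * om_quad
  · refine ⟨om, hom, ?_⟩
    show -(om ^ 1 * E) - -(om ^ 0 * E) = ((stg D (F4.w ^ 1) 0 : 𝓞 K) : K) * (om) ^ 2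
    rw [k _ _ 1 0 (by decide) (by decide)]
    simp only [h1, h0, pow_one, pow_zero]
    linear_combination (E * (1 - 2 * om)) * om_quad
  · exact absurd rfl hij
  · refine ⟨1, one_ne_zero, ?_⟩
    show -(om ^ 1 * E) - -(om ^ 2 * E) = ((stg D (F4.w ^ 1) 2 : 𝓞 K) : K) * (1) ^ 2
    rw [k _ _ 1 1 (by decide) (by decide)]
    simp only [h1, h0, pow_one, pow_zero]
    linear_combination (E) * om_quad
  · refine ⟨om ^ 2, pow_ne_zero 2 hom, ?_⟩
    show -(om ^ 2 * E) - -(om ^ 0 * E) = ((stg D (F4.w ^ 2) 0 : 𝓞 K) : K) * (om ^ 2) ^ 2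
    rw [k _ _ 1 1 (by decide) (by decide)]
    simp only [h1, h0, pow_one, pow_zero]
    linear_combination (E * (2 * om ^ 3 - om ^ 2 - om + 1)) * om_quad
  · refine ⟨1, one_ne_zero, ?_⟩
    show -(om ^ 2 * E) - -(om ^ 1 * E) = ((stg D (F4.w ^ 2) 1 : 𝓞 K) : K) * (1) ^ 2
    rw [k _ _ 1 0 (by decide) (by decide)]
    simp only [h1, h0, pow_one, pow_zero]
    linear_combination (-E) * om_quad
  · exact absurd rfl hij

theorem stgO_prod (D : 𝓞 K) (c : F4) : IsSquare (stg D c 0 * stg D c 1 * stg D c 2) := by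
  have h1 := pow_three_sq (D * s3) c.a c.b
  have h2 := pow_three_sq (-1 : 𝓞 K) (F4.w * F4.w * c).a (F4.w * F4.w * c).b
  have e : stg D c 0 * stg D c 1 * stg D c 2 =
      ((D * s3) ^ c.b.val * (D * s3) ^ c.a.val * (D * s3) ^ (c.a + c.b).val) *
      ((-1) ^ (F4.w * F4.w * c).b.val * (-1) ^ (F4.w * F4.w * c).a.val *
        (-1) ^ ((F4.w * F4.w * c).a + (F4.w * F4.w * c).b).val) := by
    show ((D * s3) ^ c.b.val * (-1) ^ (F4.w * F4.w * c).b.val) *
      ((D * s3) ^ c.a.val * (-1) ^ (F4.w * F4.w * c).a.val) *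
      ((D * s3) ^ (c.a + c.b).val * (-1) ^ ((F4.w * F4.w * c).a + (F4.w * F4.w * c).b).val) = _
    ring
  rw [e]
  exact h1.mul h2

/-- The local condition at a place where the differences have an odd value. -/
theorem bad_stg {D : 𝓞 K} (hD : D ≠ 0) (v : HeightOneSpectrum (𝓞 K)) (h4 : v.valuation K 4 = 1)
    (γ : ℤ) (hee : ∀ i j, i ≠ j →
      v.valuation K (ee om (D : K) i - ee om (D : K) j) = exp (2 * γ + 1))
    (a : Fin 3 → K) (ha : ∀ i, a i ≠ 0) (hp : IsSquare (a 0 * a 1 * a 2))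
    (h : GLoc (v.valuation K) om (D : K) a) :
    ∃ c : F4, ∀ i, Sq (v.valuation K) (a i * ((stg D c i : 𝓞 K) : K)) := by
  rcases loc_bad (v.valuation K) om_quad (coe_ne hD) h4 γ hee a ha hp h with h1 | ⟨j, h1⟩
  · refine ⟨0, fun i => ?_⟩
    have e : ((stg D 0 i : 𝓞 K) : K) = 1 := by
      rw [stgO_zero]
      rfl
    rw [e, mul_one]
    exact h1 i
  · have key : ∀ i, i ≠ j → Sq (v.valuation K)
        (a i * ((stg D (F4.w ^ (j : ℕ)) i : 𝓞 K) : K)) := by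
      intro i hij
      obtain ⟨r, hr, he⟩ := ee_stg D j i hij
      have h2 := h1 i hij
      rw [he, ← mul_assoc] at h2
      exact Sq.of_mul_sq hr h2
    refine ⟨F4.w ^ (j : ℕ), fun i => ?_⟩
    by_cases hij : i = j
    · subst hij
      obtain ⟨f, hf⟩ : ∃ f : Fin 3 → K, ∀ l, f l = a l * ((stg D (F4.w ^ (i : ℕ)) l : 𝓞 K) : K) :=
        ⟨_, fun _ => rfl⟩
      obtain ⟨k, l, hk, hl, -, -, hprod⟩ := prod_split f i
      have hfsq : IsSquare (f 0 * f 1 * f 2) := by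
        obtain ⟨r, hr⟩ := hp
        obtain ⟨s, hs⟩ := stgO_prod D (F4.w ^ (i : ℕ))
        refine ⟨r * (s : K), ?_⟩
        have hs' : ((stg D (F4.w ^ (i : ℕ)) 0 : 𝓞 K) : K) * ((stg D (F4.w ^ (i : ℕ)) 1 : 𝓞 K) : K) *
            ((stg D (F4.w ^ (i : ℕ)) 2 : 𝓞 K) : K) = (s : K) * (s : K) := by
          have := congrArg (fun x : 𝓞 K => (x : K)) hs
          push_cast at this
          exact this
        rw [hf, hf, hf]
        linear_combination ((stg D (F4.w ^ (i : ℕ)) 0 : 𝓞 K) : K) *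
          ((stg D (F4.w ^ (i : ℕ)) 1 : 𝓞 K) : K) * ((stg D (F4.w ^ (i : ℕ)) 2 : 𝓞 K) : K) * hr +
          r * r * hs'
      have hf0 : ∀ l, f l ≠ 0 := fun l => by
        rw [hf]
        exact mul_ne_zero (ha l) (coe_ne (stgO_ne hD _ _))
      have h3 : Sq (v.valuation K) (f i * (f k * f l)) := by
        rw [← hprod]
        exact Sq.of_isSquare hfsq (mul_ne_zero (mul_ne_zero (hf0 0) (hf0 1)) (hf0 2))
      have h5 : Sq (v.valuation K) (f k * f l) :=
        Sq.mul h4.le (by rw [hf]; exact key k hk) (by rw [hf]; exact key l hl)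
      have h6 := Sq.cancel h4.le h3 h5
      rw [hf] at h6
      exact h6
    · exact key i hij

/-! ### the values of the differences -/

theorem val_dle (c : F4) (v : HeightOneSpectrum (𝓞 K)) (h2 : (2 : 𝓞 K) ∉ v.asIdeal)
    (S : Finset Pq) : v.valuation K ((dle c S : 𝓞 K) : K) = v.valuation K ((dlc c S : 𝓞 K) : K) := by
  have e : ((dle c S : 𝓞 K) : K) = ((2 : 𝓞 K) : K) * ((dlc c S : 𝓞 K) : K) := by
    unfold dle
    push_cast
    rfl
  rw [e, map_mul, val_one h2, one_mul]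

theorem hype_good (c : F4) (S : Finset Pq) (v : HeightOneSpectrum (𝓞 K))
    (h2 : (2 : 𝓞 K) ∉ v.asIdeal) (h3 : s3 ∉ v.asIdeal) (hS : ∀ q ∈ S, q.1 ∉ v.asIdeal) :
    v.valuation K 4 = 1 ∧ ∀ i j, i ≠ j →
      v.valuation K (ee om ((dle c S : 𝓞 K) : K) i - ee om ((dle c S : 𝓞 K) : K) j) =
        exp (2 * 0) := by
  obtain ⟨h4, h5⟩ := Pool.Agent.Lib.MP_1a91b9_ntH2.C.hypc_good c S v h2 h3 hS
  refine ⟨h4, fun i j hij => ?_⟩
  rw [← h5 i j hij, val_ee _ _ i j hij, val_ee _ _ i j hij, val_dle c v h2]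

theorem hype_bad (c : F4) (S : Finset Pq) (v : HeightOneSpectrum (𝓞 K)) (q : Pq) (hq : q ∈ S)
    (h : q.1 ∈ v.asIdeal) :
    v.valuation K 4 = 1 ∧ ∀ i j, i ≠ j →
      v.valuation K (ee om ((dle c S : 𝓞 K) : K) i - ee om ((dle c S : 𝓞 K) : K) j) =
        exp (2 * (-1) + 1) := by
  obtain ⟨h4, h5⟩ := Pool.Agent.Lib.MP_1a91b9_ntH2.C.hypc_bad c S v q hq h
  refine ⟨h4, fun i j hij => ?_⟩
  rw [← h5 i j hij, val_ee _ _ i j hij, val_ee _ _ i j hij,
    val_dle c v (Pool.Agent.Lib.MP_1a91b9_ntH.C.two_notMem_q h)]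

/-- outside of `2`, `√-3` and `S` the values are even -/
theorem even_oute (c : F4) (S : Finset Pq) (a : Fin 3 → K) (ha : ∀ i, a i ≠ 0)
    (hp : IsSquare (a 0 * a 1 * a 2))
    (hloc : ∀ v : HeightOneSpectrum (𝓞 K), GLoc (v.valuation K) om ((dle c S : 𝓞 K) : K) a)
    (i : Fin 3) (π : 𝓞 K) (hπ : Prime π) (h2 : ¬ π ∣ 2) (h3 : ¬ π ∣ s3) (hS : ∀ q ∈ S, ¬ π ∣ q.1) :
    IsSquare ((pv π hπ).valuation K (a i)) := by
  obtain ⟨h4, hγ⟩ := hype_good c S (pv π hπ) (fun h => h2 (Ideal.mem_span_singleton.1 h))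
    (fun h => h3 (Ideal.mem_span_singleton.1 h))
    (fun q hq h => hS q hq (Ideal.mem_span_singleton.1 h))
  exact Pool.Agent.Lib.MP_1a91b9_ntH.C.loc_even ((pv π hπ).valuation K) om_quad
    (coe_ne (dle_ne c S)) h4 0 hγ a ha hp (hloc _) i

/-- the decomposition with the prime `2` -/
theorem decompE (S : Finset Pq) (a : K) (ha : a ≠ 0)
    (h : ∀ (π : 𝓞 K) (hπ : Prime π), ¬ π ∣ 2 → ¬ π ∣ s3 → (∀ q ∈ S, ¬ π ∣ q.1) →
      IsSquare ((pv π hπ).valuation K a)) :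
    ∃ (l n k : ZMod 2) (V : Pq → ZMod 2) (m : K), m ≠ 0 ∧
      a = m ^ 2 * (2 ^ l.val * (gp S n k V : K)) := by
  obtain ⟨l, hl⟩ : ∃ l : ZMod 2, IsSquare ((pv 2 prime_two).valuation K a * exp (-1) ^ l.val) :=
    exists_par _ ((Valuation.ne_zero_iff _).2 ha)
  have h2 : (2 : K) ≠ 0 := two_ne_zero
  obtain ⟨n, k, V, m, hm, hd⟩ := decomp S (a * 2 ^ l.val) (mul_ne_zero ha (pow_ne_zero _ h2))
    (fun π hπ h3 hS => by
      by_cases hπ2 : π ∣ 2
      · rw [pv_eq hπ prime_two hπ2, map_mul, map_pow, val_two]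
        exact hl
      · have e : ((2 : 𝓞 K) : K) = 2 := map_ofNat (algebraMap (𝓞 K) K) 2
        have h5 := pv_one hπ hπ2
        rw [e] at h5
        rw [map_mul, map_pow, h5, one_pow, mul_one]
        exact h π hπ hπ2 h3 hS)
  refine ⟨l, n, k, V, m / 2 ^ l.val, div_ne_zero hm (pow_ne_zero _ h2), ?_⟩
  have h6 : (2 : K) ^ l.val ≠ 0 := pow_ne_zero _ h2
  field_simp
  linear_combination hd

/-! ### the equation at `q` -/

theorem not_dvd_two (q : Pq) : ¬ q.1 ∣ 2 := by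
  intro h
  have h1 := pv_lt (x := 2) q.prime
  have h2 := h1.2 h
  have h4 := val_four q
  have e : (4 : K) = ((2 : 𝓞 K) : K) * ((2 : 𝓞 K) : K) := by
    have e : ((2 : 𝓞 K) : K) = 2 := map_ofNat (algebraMap (𝓞 K) K) 2
    rw [e]
    norm_num
  rw [e, map_mul] at h4
  have h5 : (pv q.1 q.prime).valuation K ((2 : 𝓞 K) : K) *
      (pv q.1 q.prime).valuation K ((2 : 𝓞 K) : K) < 1 :=
    mul_lt_one_of_nonneg_of_lt_one_left zero_le h2 h2.le
  exact absurd h4 h5.ne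

theorem qs_two' (q : Pq) : qs q 2 = sgz (qE.g q) := qs_two q

theorem eq_ate (d : F4) {S : Finset Pq} {q : Pq} (hq : q ∈ S) (l n k : ZMod 2) (V : Pq → ZMod 2)
    (c : F4) (i : Fin 3) (h : Sq ((pv q.1 q.prime).valuation K)
      ((2 ^ l.val * gp S n k V * stg (dle d S) c i : 𝓞 K) : K)) :
    V q = io c i ∧ l * qE.g q + (n * F4.tr (qd.a q) + k * F4.tr (F4.w * qd.a q) +
      ∑ p ∈ S.erase q, V p * qd.s p q) + io c i * (qE.g q + ((qd.A S + d).a * F4.tr (qd.a q) +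
        ((qd.A S + d).b + 1) * F4.tr (F4.w * qd.a q) + ∑ p ∈ S.erase q, qd.s p q)) +
      io (F4.w * F4.w * c) i * F4.tr (qd.a q) = 0 := by
  have h4 : (pv q.1 q.prime).valuation K (4 : K) ≤ 1 := (val_four q).le
  obtain ⟨t, ht⟩ : ∃ t : 𝓞 K, t = 2 ^ l.val * gp (S.erase q) n k V *
      (2 * gp (S.erase q) (qd.A S + d).a (qd.A S + d).b (fun _ => 1) * s3) ^ (io c i).val *
        (-1) ^ (io (F4.w * F4.w * c) i).val := ⟨_, rfl⟩
  have hnt : ¬ q.1 ∣ t := by
    rw [ht]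
    intro hd
    rcases q.prime.dvd_or_dvd hd with h1 | h1
    · rcases q.prime.dvd_or_dvd h1 with h2 | h2
      · rcases q.prime.dvd_or_dvd h2 with h3 | h3
        · exact not_dvd_two q (q.prime.dvd_of_dvd_pow h3)
        · exact not_dvd_gp_erase _ _ _ h3
      · rcases q.prime.dvd_or_dvd (q.prime.dvd_of_dvd_pow h2) with h3 | h3
        · rcases q.prime.dvd_or_dvd h3 with h5 | h5
          · exact not_dvd_two q h5
          · exact not_dvd_gp_erase _ _ _ h5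
        · exact not_dvd_s3 q h3
    · exact not_dvd_of_unit q.prime ((isUnit_one.neg).pow _) h1
  have h1 : ((1 : ZMod 2)).val = 1 := rfl
  have hfac : 2 ^ l.val * gp S n k V * stg (dle d S) c i =
      q.1 ^ ((V q).val + (io c i).val) * t := by
    rw [ht, gp_erase hq, stg, dle, dlc_gp, gp_erase hq (qd.A S + d).a, h1, pow_one]
    ring
  have hval : (pv q.1 q.prime).valuation K ((2 ^ l.val * gp S n k V * stg (dle d S) c i : 𝓞 K) : K) =
      exp (-(((V q).val + (io c i).val : ℕ) : ℤ)) := by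
    rw [hfac]
    have e1 : ((q.1 ^ ((V q).val + (io c i).val) * t : 𝓞 K) : K) =
        (q.1 : K) ^ ((V q).val + (io c i).val) * (t : K) := by
      push_cast
      rfl
    rw [e1, map_mul, map_pow, pv_self, pv_one q.prime hnt, mul_one, exp_pow]
  have hev := h.even h4
  rw [hval] at hev
  have hev2 := exp_odd hev
  rw [even_neg, Int.even_coe_nat] at hev2
  have hVc := even_val hev2
  refine ⟨hVc, ?_⟩
  have hsq : Sq ((pv q.1 q.prime).valuation K) (t : K) := by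
    have hqK : (q.1 : K) ≠ 0 := fun h0 => q.prime.ne_zero (RingOfIntegers.ext h0)
    have h5 := h.mul h4 (Sq.of_isSquare (ν := (pv q.1 q.prime).valuation K)
      (u := (1 / (q.1 : K) ^ (V q).val) ^ 2) ⟨1 / (q.1 : K) ^ (V q).val, by ring⟩
      (pow_ne_zero 2 (div_ne_zero one_ne_zero (pow_ne_zero _ hqK))))
    have h6 : ((2 ^ l.val * gp S n k V * stg (dle d S) c i : 𝓞 K) : K) *
        (1 / (q.1 : K) ^ (V q).val) ^ 2 = (t : K) := by
      rw [hfac, ← hVc]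
      have e1 : ((q.1 ^ ((V q).val + (V q).val) * t : 𝓞 K) : K) =
          (q.1 : K) ^ ((V q).val + (V q).val) * (t : K) := by
        push_cast
        rfl
      rw [e1, ← two_mul, pow_mul']
      field_simp
    rw [h6] at h5
    exact h5
  have hqs := sq_qs q hnt hsq
  have hnq : q ∉ S.erase q := notMem_erase q S
  rw [ht, qs_mul, qs_mul, qs_mul, qs_pow, qs_pow, qs_mul, qs_mul, qs_gp hnq, qs_gp hnq, qs_s3,
    qs_pow, qs_neg_one, qs_two', sgz_pow, sgz_pow, ← sgz_add, ← sgz_add, ← sgz_add, sgz_pow,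
    ← sgz_add, ← sgz_add] at hqs
  have h7 : sgz 0 = 1 := rfl
  rw [← h7] at hqs
  have h8 := sgz_inj hqs
  simp only [one_mul] at h8
  rw [← h8]
  ring

end

end Pool.Agent.Lib.MP_1a91b9_ntE.C
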