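import Pool.Agent.Lib.MP_1a91b9_ntE.C.LocQ

/-!
# MP_1a91b9_nt (TwistDensity), even classes, part C: the Selmer group

`sel_class_E0`: if the homogeneous linear system of the matrix of `c`, `S` has only the trivial
solution, a triple which satisfies the local conditions of `y² = x³ + (2 dlc c S)³` is the class of a
point of order two.
-/

set_option autoImplicit false
set_option linter.unusedSectionVars false
set_option linter.unusedVariables false
set_option linter.unusedSimpArgs false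

namespace Pool.Agent.Lib.MP_1a91b9_ntE.C

open NumberField Finset WithZero IsDedekindDomain Pool.Agent.Lib.MP_1a91b9_ntT
open Pool.Agent.Lib.MP_1a91b9_ntH (F4 wO s3 Pq qd DD dl red half qs sgz qd_rec)
open Pool.Agent.Lib.MP_1a91b9_ntH.C (GLoc ee Sq nu_four_le)
open Pool.Agent.Lib.MP_1a91b9_ntH.C.Sel (pv prime_two io Cl val_two pv_lt pv_one gp stc dlc_gp
  two_mem exp_pow exp_odd even_val io_add tr_mul_eq two_z sum_a sum_b of_mul_a of_mul_b add_a add_b
  sum_rec id_c mul_ca mul_cb of_sum gpc_sq exists_pow)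
open Pool.Agent.Lib.MP_1a91b9_ntH2 (dlc tw)

noncomputable section

/-! ### the equations at `2` -/

theorem stg_dle (c : F4) (S : Finset Pq) (l : F4) (i : Fin 3) :
    stg (dle c S) l i = 2 ^ (io l i).val * stc c S l i := by
  unfold stg dle stc
  rw [mul_assoc 2, mul_pow]
  ring

theorem Cf.stc (d : F4) (S : Finset Pq) (l : F4) (i : Fin 3) :
    Cf (stc d S l i) (F4.of (io l i) * (d + F4.w) + F4.of (io (F4.w * F4.w * l) i) * 1)
      (io l i * ∑ q ∈ S, fq q) := by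
  have h := (((Cf.dlc d S).mul Cf.s3).pow (io l i)).mul (Cf.neg_one.pow (io (F4.w * F4.w * l) i))
  rwa [add_zero, mul_zero, add_zero] at h

theorem Cf.pe (c z : F4) (i : Fin 3) :
    Cf (pe c z i) (F4.of (io (F4.w * z) i) * 1 + F4.of (io z i) * F4.w) (io (F4.cj c * z) i) := by
  have h := ((Cf.neg_one.pow (io (F4.w * z) i)).mul (Cf.s3.pow (io z i))).mul
    (Cf.ep.pow (io (F4.cj c * z) i))
  have e1 : F4.of (io (F4.w * z) i) * 1 + F4.of (io z i) * F4.w + F4.of (io (F4.cj c * z) i) * 0 =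
      F4.of (io (F4.w * z) i) * 1 + F4.of (io z i) * F4.w := by
    rw [mul_zero, add_zero]
  have e2 : io (F4.w * z) i * 0 + io z i * 0 + io (F4.cj c * z) i * 1 = io (F4.cj c * z) i := by
    ring
  rw [e1, e2] at h
  exact h

theorem eq_two_e (d : F4) (S : Finset Pq) (l n k : ZMod 2) (V : Pq → ZMod 2) (τ z : F4) (i : Fin 3)
    (a m : K) (hm : m ≠ 0) (ha : a = m ^ 2 * (2 ^ l.val * (gp S n k V : K)))
    (h : Sq ((pv 2 prime_two).valuation K)
      (a * ((stg (dle d S) τ i : 𝓞 K) : K) * ((pe d z i : 𝓞 K) : K))) :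
    l = io τ i ∧ (F4.of n * 1 + F4.of k * F4.w + ∑ q ∈ S, F4.of (V q) * qd.a q +
      (F4.of (io τ i) * (d + F4.w) + F4.of (io (F4.w * F4.w * τ) i) * 1) +
      (F4.of (io (F4.w * z) i) * 1 + F4.of (io z i) * F4.w) = 0 ∧
      ∑ q ∈ S, V q * fq q + io τ i * ∑ q ∈ S, fq q + io (F4.cj d * z) i = 0) := by
  have h4 : (pv 2 prime_two).valuation K (4 : K) ≤ 1 := (nu_four_le val_two).le
  have e2 : ((2 : 𝓞 K) : K) = 2 := map_ofNat (algebraMap (𝓞 K) K) 2
  obtain ⟨x, hx⟩ : ∃ x : 𝓞 K, x = gp S n k V * stc d S τ i * pe d z i := ⟨_, rfl⟩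
  have hCf := ((Cf.gp S n k V).mul (Cf.stc d S τ i)).mul (Cf.pe d z i)
  rw [← hx] at hCf
  have hxK : (x : K) = ((gp S n k V : 𝓞 K) : K) * ((stc d S τ i : 𝓞 K) : K) *
      ((pe d z i : 𝓞 K) : K) := by
    rw [hx]
    push_cast
    rfl
  have e1 : a * ((stg (dle d S) τ i : 𝓞 K) : K) * ((pe d z i : 𝓞 K) : K) =
      2 ^ (l.val + (io τ i).val) * (x : K) * m ^ 2 := by
    rw [ha, stg_dle, hxK]
    have e3 : ((2 ^ (io τ i).val * stc d S τ i : 𝓞 K) : K) =
        2 ^ (io τ i).val * ((stc d S τ i : 𝓞 K) : K) := by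
      have e4 : ((2 ^ (io τ i).val * stc d S τ i : 𝓞 K) : K) =
        ((2 : 𝓞 K) : K) ^ (io τ i).val * ((stc d S τ i : 𝓞 K) : K) := by
        push_cast
        rfl
      rw [e4, e2]
    rw [e3, pow_add]
    ring
  rw [e1] at h
  have h5 := Sq.of_mul_sq hm h
  have hvx : (pv 2 prime_two).valuation K (x : K) = 1 := pv_one prime_two (Cl.odd hCf.1)
  have hev := h5.even h4
  rw [map_mul, map_pow, val_two, hvx, mul_one, exp_pow] at hev
  have hev2 := exp_odd hev
  rw [even_neg, Int.even_coe_nat] at hev2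
  have hl := even_val hev2
  refine ⟨hl, ?_⟩
  rw [← hl, ← two_mul, pow_mul', mul_comm] at h5
  have h6 : Sq ((pv 2 prime_two).valuation K) (x : K) :=
    Sq.of_mul_sq (pow_ne_zero l.val (two_ne_zero (α := K))) h5
  exact hCf.of_sq h6

/-! ### linear algebra -/

theorem lin_two_e (S : Finset Pq) (d τ z : F4) (W : Pq → F4) (n k : ZMod 2) (i : Fin 3)
    (h : F4.of n * 1 + F4.of k * F4.w + ∑ q ∈ S, F4.of (io (W q + τ) i) * qd.a q +
      (F4.of (io τ i) * (d + F4.w) + F4.of (io (F4.w * F4.w * τ) i) * 1) +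
      (F4.of (io (F4.w * z) i) * 1 + F4.of (io z i) * F4.w) = 0) :
    n = (qd.A S + d).a * io τ i + io (F4.w * F4.w * τ) i + ∑ q ∈ S, io (W q) i * (qd.a q).a +
      io (F4.w * z) i ∧
    k = ((qd.A S + d).b + 1) * io τ i + ∑ q ∈ S, io (W q) i * (qd.a q).b + io z i := by
  have hA : (qd.A S).a = ∑ q ∈ S, (qd.a q).a := sum_a _
  have hB : (qd.A S).b = ∑ q ∈ S, (qd.a q).b := sum_b _
  have h1 := congrArg F4.a h
  have h2 := congrArg F4.b h
  simp only [add_a, of_mul_a, sum_a] at h1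
  simp only [add_b, of_mul_b, sum_b] at h2
  have e1 : (1 : F4).a = 1 := rfl
  have e2 : (1 : F4).b = 0 := rfl
  have e3 : F4.w.a = 0 := rfl
  have e4 : F4.w.b = 1 := rfl
  have e5 : (0 : F4).a = 0 := rfl
  have e6 : (0 : F4).b = 0 := rfl
  rw [e1, e3, e5] at h1
  rw [e2, e4, e6] at h2
  have f1 : ∑ q ∈ S, io (W q + τ) i * (qd.a q).a =
      ∑ q ∈ S, io (W q) i * (qd.a q).a + io τ i * (qd.A S).a := by
    rw [hA, mul_sum, ← sum_add_distrib]
    exact sum_congr rfl fun q _ => by rw [io_add]; ring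
  have f2 : ∑ q ∈ S, io (W q + τ) i * (qd.a q).b =
      ∑ q ∈ S, io (W q) i * (qd.a q).b + io τ i * (qd.A S).b := by
    rw [hB, mul_sum, ← sum_add_distrib]
    exact sum_congr rfl fun q _ => by rw [io_add]; ring
  rw [f1] at h1
  rw [f2] at h2
  rw [add_a, add_b]
  constructor
  · linear_combination h1 - (((qd.A S).a + d.a) * io τ i + io (F4.w * F4.w * τ) i +
      ∑ q ∈ S, io (W q) i * (qd.a q).a + io (F4.w * z) i) * two_z
  · linear_combination h2 - (((qd.A S).b + d.b + 1) * io τ i +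
      ∑ q ∈ S, io (W q) i * (qd.a q).b + io z i) * two_z

theorem lin_f (S : Finset Pq) (τ : F4) (W : Pq → F4) (i : Fin 3) (t : ZMod 2)
    (h : ∑ q ∈ S, io (W q + τ) i * fq q + io τ i * ∑ q ∈ S, fq q + t = 0) :
    ∑ q ∈ S, io (W q) i * fq q + t = 0 := by
  have f1 : ∑ q ∈ S, io (W q + τ) i * fq q =
      ∑ q ∈ S, io (W q) i * fq q + io τ i * ∑ q ∈ S, fq q := by
    rw [mul_sum, ← sum_add_distrib]
    exact sum_congr rfl fun q _ => by rw [io_add]; ring
  rw [f1] at h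
  linear_combination h - (io τ i * ∑ q ∈ S, fq q) * two_z

theorem row_e (S : Finset Pq) {q : Pq} (hq : q ∈ S) (d τ z : F4) (W : Pq → F4) (n k : ZMod 2)
    (i : Fin 3)
    (hn : n = (qd.A S + d).a * io τ i + io (F4.w * F4.w * τ) i + ∑ q ∈ S, io (W q) i * (qd.a q).a +
      io (F4.w * z) i)
    (hk : k = ((qd.A S + d).b + 1) * io τ i + ∑ q ∈ S, io (W q) i * (qd.a q).b + io z i)
    (h : io τ i * qE.g q + (n * F4.tr (qd.a q) + k * F4.tr (F4.w * qd.a q) +
      ∑ p ∈ S.erase q, io (W p + τ) i * qd.s p q) + io (W q + τ) i *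
        (qE.g q + ((qd.A S + d).a * F4.tr (qd.a q) + ((qd.A S + d).b + 1) * F4.tr (F4.w * qd.a q) +
          ∑ p ∈ S.erase q, qd.s p q)) +
      io (F4.w * F4.w * (W q + τ)) i * F4.tr (qd.a q) = 0) :
    ∑ p ∈ S.erase q, io (W p) i * qd.s q p + io (W q) i * (F4.tr (d * qd.a q) +
      F4.tr (F4.w * qd.a q) + ∑ p ∈ S.erase q, qd.s q p + qE.g q) +
      io (F4.w * F4.w * W q) i * F4.tr (qd.a q) +
      (io (F4.w * z) i * F4.tr (qd.a q) + io z i * F4.tr (F4.w * qd.a q)) = 0 := by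
  have f1 : ∑ p ∈ S.erase q, io (W p + τ) i * qd.s p q =
      ∑ p ∈ S.erase q, io (W p) i * qd.s q p +
      ∑ p ∈ S.erase q, io (W p) i * F4.tr (qd.a p * qd.a q) +
        io τ i * ∑ p ∈ S.erase q, qd.s p q := by
    rw [mul_sum, ← sum_add_distrib, ← sum_add_distrib]
    refine sum_congr rfl fun p hp => ?_
    rw [io_add]
    have h1 := qd_rec p q (ne_of_mem_erase hp)
    linear_combination (io (W p) i) * h1 - io (W p) i * qd.s q p * two_z
  have f2 : (∑ q ∈ S, io (W q) i * (qd.a q).a) * F4.tr (qd.a q) +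
      (∑ q ∈ S, io (W q) i * (qd.a q).b) * F4.tr (F4.w * qd.a q) =
      io (W q) i * F4.tr (qd.a q * qd.a q) +
        ∑ p ∈ S.erase q, io (W p) i * F4.tr (qd.a p * qd.a q) := by
    rw [add_comm (io (W q) i * F4.tr (qd.a q * qd.a q)),
      sum_erase_add _ (fun p => io (W p) i * F4.tr (qd.a p * qd.a q)) hq, sum_mul, sum_mul,
      ← sum_add_distrib]
    exact sum_congr rfl fun p _ => by rw [← tr_mul_eq (qd.a p) (qd.a q)]; ring
  rw [f1, sum_rec S hq, io_add, mul_add (F4.w * F4.w), io_add, hn, hk] at h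
  rw [id_c (qd.A S)]
  obtain ⟨σ, hσ⟩ : ∃ σ : ZMod 2, σ = ∑ p ∈ S.erase q, qd.s q p := ⟨_, rfl⟩
  obtain ⟨Z, hZ⟩ : ∃ Z : ZMod 2, Z = ∑ p ∈ S.erase q, io (W p) i * qd.s q p := ⟨_, rfl⟩
  obtain ⟨Y, hY⟩ : ∃ Y : ZMod 2, Y = ∑ p ∈ S.erase q, io (W p) i * F4.tr (qd.a p * qd.a q) :=
    ⟨_, rfl⟩
  obtain ⟨S1, hS1⟩ : ∃ Y : ZMod 2, Y = ∑ q ∈ S, io (W q) i * (qd.a q).a := ⟨_, rfl⟩
  obtain ⟨S2, hS2⟩ : ∃ Y : ZMod 2, Y = ∑ q ∈ S, io (W q) i * (qd.a q).b := ⟨_, rfl⟩
  rw [← hσ, ← hZ, ← hY, ← hS1, ← hS2] at h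
  rw [← hS1, ← hS2, ← hY] at f2
  rw [← hσ, ← hZ]
  generalize (qd.A S + d).a = X at h ⊢
  generalize (qd.A S + d).b = X' at h ⊢
  generalize F4.tr ((qd.A S + qd.a q) * qd.a q) = T at h ⊢
  generalize F4.tr (F4.w * qd.a q) = β at h f2 ⊢
  generalize F4.tr (qd.a q * qd.a q) = γ at h f2 ⊢
  generalize F4.tr (qd.a q) = α at h f2 ⊢
  generalize io (W q) i = w at h f2 ⊢
  generalize io τ i = t at h ⊢
  generalize io (F4.w * F4.w * τ) i = t'' at h ⊢
  generalize io (F4.w * F4.w * W q) i = w'' at h ⊢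
  generalize io (F4.w * z) i = u at h ⊢
  generalize io z i = u' at h ⊢
  generalize qE.g q = g at h ⊢
  linear_combination h - f2 - (X * t * α + t'' * α + (X' + 1) * t * β + Y + t * (σ + T) +
    t * g) * two_z

theorem mul_ea (g s t : ZMod 2) (a x z : F4) :
    ((F4.of s + a + F4.of t + F4.of g) * x + F4.cj a * z).a =
    x.a * (t + F4.tr (F4.w * a) + s + g) + (F4.w * F4.w * x).a * F4.tr a +
      ((F4.w * z).a * F4.tr a + z.a * F4.tr (F4.w * a)) := by
  have h1 : ((F4.of s + a + F4.of t + F4.of g) * x).a = x.a * (t + F4.tr (F4.w * a) + s + g) +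
      (F4.w * F4.w * x).a * F4.tr a := by
    have h2 := mul_ca (s + g) t a x
    have h3 : F4.of (s + g) + a + F4.of t = F4.of s + a + F4.of t + F4.of g := by
      rw [F4.of_add]
      ring
    rw [h3] at h2
    rw [h2]
    ring
  have h4 : ∀ a z : F4, (F4.cj a * z).a = (F4.w * z).a * F4.tr a + z.a * F4.tr (F4.w * a) := by
    decide
  rw [add_a, h1, h4]

theorem mul_eb (g s t : ZMod 2) (a x z : F4) :
    ((F4.of s + a + F4.of t + F4.of g) * x + F4.cj a * z).b =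
    x.b * (t + F4.tr (F4.w * a) + s + g) + (F4.w * F4.w * x).b * F4.tr a +
      ((F4.w * z).b * F4.tr a + z.b * F4.tr (F4.w * a)) := by
  have h1 : ((F4.of s + a + F4.of t + F4.of g) * x).b = x.b * (t + F4.tr (F4.w * a) + s + g) +
      (F4.w * F4.w * x).b * F4.tr a := by
    have h2 := mul_cb (s + g) t a x
    have h3 : F4.of (s + g) + a + F4.of t = F4.of s + a + F4.of t + F4.of g := by
      rw [F4.of_add]
      ring
    rw [h3] at h2
    rw [h2]
    ring
  have h4 : ∀ a z : F4, (F4.cj a * z).b = (F4.w * z).b * F4.tr a + z.b * F4.tr (F4.w * a) := by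
    decide
  rw [add_b, h1, h4]

/-- The rows of the homogeneous system. -/
structure RowE (c : F4) (S : Finset Pq) (v : Pq → F4) (z : F4) : Prop where
  row : ∀ q ∈ S, ∑ p ∈ S.erase q, F4.of (qd.s q p) * v p +
    (F4.cj (qd.a q) + F4.of (F4.tr (c * qd.a q)) + F4.of (∑ p ∈ S.erase q, qd.s q p) +
      F4.of (qE.g q)) * v q + qd.a q * z = 0
  last : ∑ q ∈ S, F4.of (fq q) * v q + c * z = 0

theorem row_of (S : Finset Pq) (d z : F4) (W : Pq → F4)
    (h : ∀ q ∈ S, ∀ i, ∑ p ∈ S.erase q, io (W p) i * qd.s q p + io (W q) i * (F4.tr (d * qd.a q) +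
      F4.tr (F4.w * qd.a q) + ∑ p ∈ S.erase q, qd.s q p + qE.g q) +
      io (F4.w * F4.w * W q) i * F4.tr (qd.a q) +
      (io (F4.w * z) i * F4.tr (qd.a q) + io z i * F4.tr (F4.w * qd.a q)) = 0)
    (hf : ∀ i, ∑ q ∈ S, io (W q) i * fq q + io (F4.cj d * z) i = 0) :
    RowE d S (fun q => F4.cj (W q)) (F4.cj z) := by
  have i0 : ∀ x : F4, io x 0 = x.b := fun x => rfl
  have i1 : ∀ x : F4, io x 1 = x.a := fun x => rfl
  have e5 : (0 : F4).a = 0 := rfl
  have e6 : (0 : F4).b = 0 := rfl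
  constructor
  · intro q hq
    obtain ⟨σ, hσ⟩ : ∃ σ : ZMod 2, σ = ∑ p ∈ S.erase (q : Pq), qd.s q p := ⟨_, rfl⟩
    have e2 : ∑ p ∈ S.erase (q : Pq), F4.of (qd.s q p) * W p +
        ((F4.of σ + qd.a q + F4.of (F4.tr (d * qd.a q)) + F4.of (qE.g q)) * W q +
          F4.cj (qd.a q) * z) = 0 := by
      have g1 := h q hq 1
      have g0 := h q hq 0
      rw [← hσ] at g1 g0
      simp only [i0] at g0
      simp only [i1] at g1
      apply F4.ext
      · rw [add_a, sum_a, mul_ea]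
        have e3 : ∑ p ∈ S.erase (q : Pq), (F4.of (qd.s q p) * W p).a =
            ∑ p ∈ S.erase (q : Pq), (W p).a * qd.s q p :=
          sum_congr rfl fun p _ => by rw [of_mul_a, mul_comm]
        rw [e3, e5]
        linear_combination g1
      · rw [add_b, sum_b, mul_eb]
        have e3 : ∑ p ∈ S.erase (q : Pq), (F4.of (qd.s q p) * W p).b =
            ∑ p ∈ S.erase (q : Pq), (W p).b * qd.s q p :=
          sum_congr rfl fun p _ => by rw [of_mul_b, mul_comm]
        rw [e3, e6]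
        linear_combination g0
    have e3 := congrArg F4.cj e2
    simp only [F4.cj_add, F4.cj_mul, F4.cj_sum, F4.cj_of, F4.cj_zero, F4.cj_cj] at e3
    rw [← hσ]
    linear_combination e3
  · have g1 := hf 1
    have g0 := hf 0
    simp only [i0] at g0
    simp only [i1] at g1
    have e2 : ∑ q ∈ S, F4.of (fq q) * W q + F4.cj d * z = 0 := by
      apply F4.ext
      · rw [add_a, sum_a, e5, ← g1]
        exact congrArg (· + (F4.cj d * z).a) (sum_congr rfl fun p _ => by rw [of_mul_a, mul_comm])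
      · rw [add_b, sum_b, e6, ← g0]
        exact congrArg (· + (F4.cj d * z).b) (sum_congr rfl fun p _ => by rw [of_mul_b, mul_comm])
    have e3 := congrArg F4.cj e2
    simp only [F4.cj_add, F4.cj_mul, F4.cj_sum, F4.cj_of, F4.cj_zero, F4.cj_cj] at e3
    exact e3

/-- **The Selmer group.** -/
theorem sel_class_E0 (hL : LocE2) (d : F4) (S : Finset Pq)
    (hM : ∀ (v : Pq → F4) (z : F4), RowE d S v z → (∀ q ∈ S, v q = 0) ∧ z = 0)
    (a : Fin 3 → K) (ha : ∀ i, a i ≠ 0) (hp : IsSquare (a 0 * a 1 * a 2))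
    (hloc : ∀ v : HeightOneSpectrum (𝓞 K), GLoc (v.valuation K) om ((dle d S : 𝓞 K) : K) a) :
    (∀ i, IsSquare (a i)) ∨
      ∃ j, ∀ i, i ≠ j →
        IsSquare (a i * (ee om ((dle d S : 𝓞 K) : K) j - ee om ((dle d S : 𝓞 K) : K) i)) := by
  classical
  have e2 : ((2 : 𝓞 K) : K) = 2 := map_ofNat (algebraMap (𝓞 K) K) 2
  have hdec : ∀ i, ∃ (l n k : ZMod 2) (V : Pq → ZMod 2) (m : K), m ≠ 0 ∧
      a i = m ^ 2 * (2 ^ l.val * (gp S n k V : K)) := fun i =>
    decompE S (a i) (ha i) fun π hπ h2 h3 hS => even_oute d S a ha hp hloc i π hπ h2 h3 hS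
  choose l n k V m hm ham using hdec
  -- the primes of `S`
  have hq : ∀ q ∈ S, ∃ c : F4, ∀ i, V i q = io c i ∧
      l i * qE.g q + (n i * F4.tr (qd.a q) + k i * F4.tr (F4.w * qd.a q) +
        ∑ p ∈ S.erase q, V i p * qd.s p q) + io c i * (qE.g q + ((qd.A S + d).a * F4.tr (qd.a q) +
        ((qd.A S + d).b + 1) * F4.tr (F4.w * qd.a q) + ∑ p ∈ S.erase q, qd.s p q)) +
      io (F4.w * F4.w * c) i * F4.tr (qd.a q) = 0 := by
    intro q hq
    have hqv : q.1 ∈ (pv q.1 q.prime).asIdeal := Ideal.mem_span_singleton_self _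
    obtain ⟨h4, hee⟩ := hype_bad d S (pv q.1 q.prime) q hq hqv
    obtain ⟨c, hc⟩ := bad_stg (dle_ne d S) (pv q.1 q.prime) h4 (-1) hee a ha hp (hloc _)
    refine ⟨c, fun i => eq_ate d hq (l i) (n i) (k i) (V i) c i ?_⟩
    have h1 := hc i
    have e : a i * ((stg (dle d S) c i : 𝓞 K) : K) =
        ((2 ^ (l i).val * gp S (n i) (k i) (V i) * stg (dle d S) c i : 𝓞 K) : K) * m i ^ 2 := by
      rw [ham i]
      have e1 : ((2 ^ (l i).val * gp S (n i) (k i) (V i) * stg (dle d S) c i : 𝓞 K) : K) =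
          ((2 : 𝓞 K) : K) ^ (l i).val * ((gp S (n i) (k i) (V i) : 𝓞 K) : K) *
            ((stg (dle d S) c i : 𝓞 K) : K) := by
        push_cast
        rfl
      rw [e1, e2]
      ring
    rw [e] at h1
    exact Sq.of_mul_sq (hm i) h1
  choose! Vf hVf using hq
  -- the place above `2`
  obtain ⟨τ, z, hτ⟩ := hL d S a ha hp (hloc _)
  obtain ⟨W, hW⟩ : ∃ W : Pq → F4, ∀ p, Vf p = W p + τ :=
    ⟨fun p => Vf p + τ, fun p => by rw [add_assoc, F4.add_self, add_zero]⟩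
  have hVW : ∀ p ∈ S, ∀ i, V i p = io (W p + τ) i := fun p hp i => by
    rw [(hVf p hp i).1, hW]
  have h2 := fun i => eq_two_e d S (l i) (n i) (k i) (V i) τ z i (a i) (m i) (hm i) (ham i) (hτ i)
  have h3 : ∀ i, n i = (qd.A S + d).a * io τ i + io (F4.w * F4.w * τ) i +
      ∑ q ∈ S, io (W q) i * (qd.a q).a + io (F4.w * z) i ∧
      k i = ((qd.A S + d).b + 1) * io τ i + ∑ q ∈ S, io (W q) i * (qd.a q).b + io z i := by
    intro i
    refine lin_two_e S d τ z W (n i) (k i) i ?_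
    have h4 := (h2 i).2.1
    have e : ∑ q ∈ S, F4.of (V i q) * qd.a q = ∑ q ∈ S, F4.of (io (W q + τ) i) * qd.a q :=
      sum_congr rfl fun q hq => by rw [hVW q hq i]
    rw [e] at h4
    exact h4
  have hf : ∀ i, ∑ q ∈ S, io (W q) i * fq q + io (F4.cj d * z) i = 0 := by
    intro i
    refine lin_f S τ W i _ ?_
    have h4 := (h2 i).2.2
    have e : ∑ q ∈ S, V i q * fq q = ∑ q ∈ S, io (W q + τ) i * fq q :=
      sum_congr rfl fun q hq => by rw [hVW q hq i]
    rw [e] at h4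
    exact h4
  have hR := row_of S d z W (fun q hq i => by
    refine row_e S hq d τ z W (n i) (k i) i (h3 i).1 (h3 i).2 ?_
    have h4 := (hVf q hq i).2
    have e : ∑ p ∈ S.erase q, V i p * qd.s p q = ∑ p ∈ S.erase q, io (W p + τ) i * qd.s p q :=
      sum_congr rfl fun p hp => by rw [hVW p (mem_of_mem_erase hp) i]
    rw [e, hW q, (h2 i).1] at h4
    exact h4) hf
  obtain ⟨hv, hz⟩ := hM _ _ hR
  have hW0 : ∀ q ∈ S, W q = 0 := fun q hq => by
    rw [← F4.cj_cj (W q), hv q hq, F4.cj_zero]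
  have hz0 : z = 0 := by rw [← F4.cj_cj z, hz, F4.cj_zero]
  have hio : ∀ i, io 0 i = 0 := by decide
  have hiow : ∀ i, io (F4.w * 0) i = 0 := by decide
  have hsq : ∀ i, IsSquare (a i * ((stg (dle d S) τ i : 𝓞 K) : K)) := by
    intro i
    obtain ⟨r, hr⟩ := gpc_sq S (qd.A S + d) τ i
    have z1 : ∑ q ∈ S, io (W q) i * (qd.a q).a = 0 :=
      sum_eq_zero fun q hq => by rw [hW0 q hq, hio, zero_mul]
    have z2 : ∑ q ∈ S, io (W q) i * (qd.a q).b = 0 :=
      sum_eq_zero fun q hq => by rw [hW0 q hq, hio, zero_mul]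
    have hn := (h3 i).1
    have hk := (h3 i).2
    rw [z1, add_zero, hz0, hiow, add_zero] at hn
    rw [z2, add_zero, hz0, hio, add_zero] at hk
    have e : gp S (n i) (k i) (V i) = gp S ((qd.A S + d).a * io τ i + io (F4.w * F4.w * τ) i)
        (((qd.A S + d).b + 1) * io τ i) (fun _ => io τ i) := by
      rw [hn, hk]
      unfold gp
      congr 1
      exact prod_congr rfl fun q hq => by rw [hVW q hq i, hW0 q hq, zero_add]
    rw [← e, ← dlc_gp] at hr
    refine ⟨m i * (r : K) * 2 ^ (l i).val, ?_⟩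
    have e1 : ((gp S (n i) (k i) (V i) : 𝓞 K) : K) * ((stc d S τ i : 𝓞 K) : K) =
        (r : K) * (r : K) := by
      have := congrArg (fun x : 𝓞 K => (x : K)) hr
      push_cast at this
      unfold stc
      push_cast
      exact this
    have e3 : ((stg (dle d S) τ i : 𝓞 K) : K) = 2 ^ (l i).val * ((stc d S τ i : 𝓞 K) : K) := by
      rw [stg_dle, ← (h2 i).1]
      have e4 : ((2 ^ (l i).val * stc d S τ i : 𝓞 K) : K) =
        ((2 : 𝓞 K) : K) ^ (l i).val * ((stc d S τ i : 𝓞 K) : K) := by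
        push_cast
        rfl
      rw [e4, e2]
    rw [ham i, e3]
    linear_combination m i ^ 2 * (2 ^ (l i).val) ^ 2 * e1
  by_cases hc0 : τ = 0
  · left
    intro i
    have h1 := hsq i
    rw [hc0, stgO_zero] at h1
    have e : ((1 : 𝓞 K) : K) = 1 := rfl
    rw [e, mul_one] at h1
    exact h1
  · right
    obtain ⟨j, rfl⟩ := exists_pow τ hc0
    refine ⟨j, fun i hij => ?_⟩
    obtain ⟨r, hr, he⟩ := ee_stg (dle d S) j i hij
    rw [he, ← mul_assoc]
    exact (hsq i).mul ⟨r, by ring⟩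

end

end Pool.Agent.Lib.MP_1a91b9_ntE.C
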