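import Pool.Agent.Lib.MP_1a91b9_ntH.C.V

/-!
# MP_1a91b9_nt (TwistDensity), phase E, part C: the local condition at `2` when `2` divides `d`
-/

set_option autoImplicit false
set_option linter.unusedSectionVars false

namespace Pool.Agent.Lib.MP_1a91b9_ntE.C

open WithZero Pool.Agent.Lib.MP_1a91b9_ntH.C

variable {L : Type*} [Field L] [CharZero L] {ν : Valuation L ℤᵐ⁰}

/-- a value below `1` is at most `exp (-1)` -/
theorem lt_one_le {x : L} {m : ℤ} (h : ν x < exp m) : ν x ≤ exp (m - 1) := by
  by_cases h0 : x = 0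
  · rw [h0, map_zero]
    exact zero_le'
  · obtain ⟨n, hn⟩ := exists_nu ν h0
    rw [hn, exp_lt_exp] at h
    rw [hn, exp_le_exp]
    omega

theorem sq_eq_one {g : ℤᵐ⁰} (h : g ^ 2 = 1) : g = 1 :=
  (pow_eq_one_iff_of_nonneg zero_le' (by norm_num)).1 h

/-- the square of a unit is a power of `z` modulo `4` -/
theorem exists_lam (h2 : ν 2 = exp (-1)) {z : L} (hz : z ^ 2 + z + 1 = 0)
    (hres : ∀ x : L, ν x = 1 → ∃ j : Fin 3, ν (x - z ^ (j : ℕ)) < 1) {c : L} (hc : ν c = 1) :
    ∃ lam : L, (lam = 0 ∨ lam = 1 ∨ lam = z ∨ lam = z ^ 2) ∧ ν (c ^ 2 - lam) ≤ ν 4 := by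
  obtain ⟨k, hk⟩ := hres c hc
  have hk1 : ν (c - z ^ (k : ℕ)) ≤ exp (-1) := by
    rw [← exp_zero] at hk
    exact lt_one_le hk
  have h : ν (c ^ 2 - (z ^ (k : ℕ)) ^ 2) ≤ ν 4 := by
    have e : c ^ 2 - (z ^ (k : ℕ)) ^ 2 =
        (c - z ^ (k : ℕ)) * ((c - z ^ (k : ℕ)) + 2 * z ^ (k : ℕ)) := by ring
    have h3 : ν ((c - z ^ (k : ℕ)) + 2 * z ^ (k : ℕ)) ≤ exp (-1) := by
      refine ν.map_add_le hk1 ?_
      rw [map_mul, nu_zpow ν hz, mul_one, h2]
    rw [e, nu_four h2, map_mul]
    calc _ ≤ (exp (-1) : ℤᵐ⁰) * exp (-1) := mul_le_mul' hk1 h3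
      _ = exp (-2) := by rw [← exp_add]; norm_num
  have h3 : z ^ 3 = 1 := by linear_combination (z - 1) * hz
  refine ⟨(z ^ (k : ℕ)) ^ 2, ?_, h⟩
  clear h hk1 hk
  fin_cases k
  · right; left
    simp
  · right; right; right
    simp
  · right; right; left
    simp only [Fin.reduceFinMk, Fin.val_two]
    linear_combination z * h3

/-- the quotient of two different powers of `z` -/
theorem exists_w {z : L} (hz : z ^ 2 + z + 1 = 0) {i j : Fin 3} (hij : i ≠ j) :
    ∃ w : L, w ^ 2 + w + 1 = 0 ∧ z ^ (i : ℕ) = w * z ^ (j : ℕ) := by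
  have h3 : z ^ 3 = 1 := by linear_combination (z - 1) * hz
  have hz2 : (z ^ 2) ^ 2 + z ^ 2 + 1 = 0 := by linear_combination (z ^ 2 - z + 1) * hz
  fin_cases i <;> fin_cases j <;> first | exact absurd rfl hij | skip
  all_goals simp only [Fin.zero_eta, Fin.val_zero, Fin.reduceFinMk, Fin.val_two, Fin.mk_one,
        Fin.val_one]
  · exact ⟨z ^ 2, hz2, by linear_combination -h3⟩
  · exact ⟨z, hz, by linear_combination -h3⟩
  · exact ⟨z, hz, by ring⟩
  · exact ⟨z ^ 2, hz2, by linear_combination (-z) * h3⟩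
  · exact ⟨z ^ 2, hz2, by ring⟩
  · exact ⟨z, hz, by ring⟩

/-- the place `2`, `ν d = ν 2`: the classes of the local points. -/
theorem loc_even2 {z d : L} (hz : z ^ 2 + z + 1 = 0) (h2 : ν 2 = exp (-1))
    (hres : ∀ x : L, ν x = 1 → ∃ j : Fin 3, ν (x - z ^ (j : ℕ)) < 1) (hd : ν d = exp (-1))
    (a : Fin 3 → L) (h : GLoc ν z d a) :
    ∃ lam : L, (lam = 0 ∨ lam = 1 ∨ lam = z ∨ lam = z ^ 2) ∧
      ((∀ i : Fin 3, Sq ν (a i * (1 + d * z ^ (i : ℕ) * lam))) ∨
        ∃ j : Fin 3, ∀ i : Fin 3, i ≠ j →
          Sq ν (a i * (ee z d j - ee z d i) * (1 + d * z ^ (i : ℕ) * lam))) := by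
  have h4 := nu_four h2
  have h4l := nu_four_le h2
  have hz0 : z ≠ 0 := by
    rintro rfl
    simp at hz
  have hd0 : d ≠ 0 := by
    rintro rfl
    rw [map_zero] at hd
    exact exp_ne_zero hd.symm
  have h3 : z ^ 3 = 1 := by linear_combination (z - 1) * hz
  rcases h with h | ⟨j, h⟩ | ⟨x, hx, h⟩
  · refine ⟨0, Or.inl rfl, Or.inl fun i => ?_⟩
    rw [mul_zero, add_zero, mul_one]
    exact h i
  · refine ⟨0, Or.inl rfl, Or.inr ⟨j, fun i hi => ?_⟩⟩
    rw [mul_zero, add_zero, mul_one]
    exact h i hi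
  · have hevn : IsSquare (ν (x ^ 3 + d ^ 3)) := hx.even h4l.le
    have hd3 : ν (d ^ 3) = exp (-3) := by
      rw [map_pow, hd, ← exp_nsmul]
      norm_num
    have hXe : ∀ i : Fin 3, x - ee z d i = x + d * z ^ (i : ℕ) := fun i => by
      rw [ee]
      ring
    have hs0 : x ^ 3 + d ^ 3 ≠ 0 := hx.ne h4l.le
    have hx0 : x ≠ 0 := by
      rintro rfl
      rw [zero_pow three_ne_zero, zero_add, hd3, isSquare_exp] at hevn
      obtain ⟨m, hm⟩ := hevn
      omega
    obtain ⟨n, hn⟩ := exists_nu ν hx0
    have hx3 : ν (x ^ 3) = exp (3 * n) := by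
      rw [map_pow, hn, ← exp_nsmul]
      norm_num
    by_cases hn0 : 0 ≤ n
    · -- `x` is not divisible by `2`
      have hs3 : ν (x ^ 3 + d ^ 3) = exp (3 * n) := by
        rw [ν.map_add_eq_of_lt_left (by
          rw [hx3, hd3, exp_lt_exp]
          omega), hx3]
      have hxs : Sq ν x := by
        refine Sq.of_mul_sq hx0 ?_
        have h5 : Sq ν (1 * (x ^ 3 + d ^ 3)) := by rwa [one_mul]
        have h6 : Sq ν (1 * x ^ 3) := by
          refine h5.near h4l.le ?_
          have e : x ^ 3 / (x ^ 3 + d ^ 3) - 1 = -(d ^ 3 / (x ^ 3 + d ^ 3)) := by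
            rw [div_sub_one hs0]
            rw [← neg_div]
            congr 1
            ring
          rw [e, Valuation.map_neg, map_div₀, hd3, hs3, h4, ← exp_sub, exp_lt_exp]
          omega
        have e : x * x ^ 2 = 1 * x ^ 3 := by ring
        rwa [e]
      rcases hn0.lt_or_eq with hn1 | hn1
      · -- `x` is not integral
        refine ⟨0, Or.inl rfl, Or.inl fun i => ?_⟩
        rw [mul_zero, add_zero, mul_one]
        refine Sq.cancel h4l.le ((h i).near h4l.le ?_) hxs
        have hXi0 : x - ee z d i ≠ 0 := fun h' => (h i).ne h4l.le (by rw [h', mul_zero])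
        have hXv : ν (x - ee z d i) = exp n := by
          rw [hXe, ν.map_add_eq_of_lt_left, hn]
          rw [map_mul, nu_zpow ν hz, mul_one, hd, hn, exp_lt_exp]
          omega
        have e : x / (x - ee z d i) - 1 = -(d * z ^ (i : ℕ) / (x - ee z d i)) := by
          rw [div_sub_one hXi0, ← neg_div]
          congr 1
          rw [hXe]
          ring
        rw [e, Valuation.map_neg, map_div₀, hXv, map_mul, nu_zpow ν hz, mul_one, hd, h4, ← exp_sub,
          exp_lt_exp]
        obtain ⟨m, hm⟩ : Even (3 * n) := by rwa [hs3, isSquare_exp] at hevn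
        omega
      · -- `x` is a unit
        subst hn1
        rw [exp_zero] at hn
        obtain ⟨b, hb, hbx⟩ := hxs
        have hb1 : ν b = 1 := by
          have h5 := nu_one h4l.le hbx
          rw [map_div₀, hn, map_pow, one_div, inv_eq_one] at h5
          exact sq_eq_one h5
        have hib : ν b⁻¹ = 1 := by rw [map_inv₀, hb1, inv_one]
        obtain ⟨lam, hl, hlam⟩ := exists_lam h2 hz hres hib
        refine ⟨lam, hl, Or.inl fun i => ?_⟩
        have hxs : Sq ν x := ⟨b, hb, hbx⟩
        refine Sq.cancel (x := x) h4l.le ?_ hxs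
        have e : a i * (1 + d * z ^ (i : ℕ) * lam) * x =
            a i * (x * (1 + d * z ^ (i : ℕ) * lam)) := by ring
        rw [e]
        refine (h i).near h4l.le ?_
        have hXi0 : x - ee z d i ≠ 0 := fun h' => (h i).ne h4l.le (by rw [h', mul_zero])
        have hXv : ν (x - ee z d i) = 1 := by
          rw [hXe, ν.map_add_eq_of_lt_left, hn]
          rw [map_mul, nu_zpow ν hz, mul_one, hd, hn, ← exp_zero, exp_lt_exp]
          omega
        have e : x * (1 + d * z ^ (i : ℕ) * lam) / (x - ee z d i) - 1 =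
            -(d * z ^ (i : ℕ) * (x * ((b⁻¹ ^ 2 - lam)) - (x / b ^ 2 - 1))) / (x - ee z d i) := by
          rw [div_sub_one hXi0]
          congr 1
          rw [hXe]
          field_simp
          ring
        rw [e, map_div₀, hXv, div_one, Valuation.map_neg, map_mul, map_mul, nu_zpow ν hz, mul_one, hd]
        have h5 : ν (x * ((b⁻¹ ^ 2 - lam)) - (x / b ^ 2 - 1)) ≤ ν 4 := by
          refine ν.map_sub_le ?_ hbx.le
          rw [map_mul, hn, one_mul]
          exact hlam
        calc _ ≤ (exp (-1) : ℤᵐ⁰) * ν 4 := by gcongr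
          _ < ν 4 := by
            rw [h4, ← exp_add, exp_lt_exp]
            omega
    · -- `x` is divisible by `2`
      push Not at hn0
      have hn1 : n = -1 := by
        by_contra hne
        have hs3 : ν (x ^ 3 + d ^ 3) = exp (-3) := by
          rw [ν.map_add_eq_of_lt_right (by
            rw [hx3, hd3, exp_lt_exp]
            omega), hd3]
        rw [hs3, isSquare_exp] at hevn
        obtain ⟨m, hm⟩ := hevn
        omega
      subst hn1
      have hxd : ν (-(x / d)) = 1 := by
        rw [Valuation.map_neg, map_div₀, hn, hd, div_self exp_ne_zero]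
      obtain ⟨j, hj⟩ := hres _ hxd
      obtain ⟨e, he⟩ : ∃ e : L, e = ee z d j := ⟨_, rfl⟩
      have he1 : ν e = exp (-1) := by
        have e5 : e = -(z ^ (j : ℕ) * d) := by
          rw [he, ee]
        rw [e5, Valuation.map_neg, map_mul, nu_zpow ν hz, one_mul, hd]
      have he0 : e ≠ 0 := by
        intro h'
        rw [h', map_zero] at he1
        exact exp_ne_zero he1.symm
      have he3 : e ^ 3 = -d ^ 3 := by
        have hzj : (z ^ (j : ℕ)) ^ 3 = 1 := by rw [← pow_mul, mul_comm, pow_mul, h3, one_pow]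
        rw [he, ee]
        linear_combination (-d ^ 3) * hzj
      have hXj : ν (x - e) ≤ exp (-2) := by
        have e5 : x - e = -(d * (-(x / d) - z ^ (j : ℕ))) := by
          rw [he, ee]
          field_simp
          ring
        rw [e5, Valuation.map_neg]
        have h6 : ν (d * (-(x / d) - z ^ (j : ℕ))) < exp (-1) := by
          rw [map_mul, hd]
          calc _ < (exp (-1) : ℤᵐ⁰) * 1 := by
                gcongr
                exact exp_pos
            _ = _ := mul_one _
        exact lt_one_le h6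
      -- the other roots
      have hoth : ∀ i, i ≠ j → ∃ w : L, w ^ 2 + w + 1 = 0 ∧ ee z d i = w * e ∧
          z ^ (i : ℕ) = w * z ^ (j : ℕ) := by
        intro i hi
        obtain ⟨w, hw, hw2⟩ := exists_w hz hi
        refine ⟨w, hw, ?_, hw2⟩
        rw [he, ee, ee, hw2]
        ring
      -- `1 - w` is a unit
      have hunit : ∀ w t : L, w ^ 2 + w + 1 = 0 → ν t ≤ 1 → ν (1 - w + 2 * t) = 1 := by
        intro w t hw ht
        have hw3 : w ^ 3 = 1 := by linear_combination (w - 1) * hw
        have e5 : 1 - w + 2 * t = -(w ^ 2 * (1 + 2 * (w ^ 2 - t * w))) := by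
          linear_combination (1 - 2 * w + 2 * w ^ 2 - 2 * t * (w - 1)) * hw
        have hw1 := nu_z ν hw
        rw [e5, Valuation.map_neg, map_mul, map_pow, hw1, one_pow, one_mul]
        refine nu_one_add h2 (ν.map_sub_le ?_ ?_)
        · rw [map_pow, hw1, one_pow]
        · rw [map_mul, hw1, mul_one]
          exact ht
      obtain ⟨t, ht⟩ : ∃ t : L, t = (x - e) / (2 * e) := ⟨_, rfl⟩
      have hxt : x = e + 2 * t * e := by
        rw [ht]
        field_simp
        ring
      have ht1 : ν t ≤ 1 := by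
        rw [ht, map_div₀, map_mul, h2, he1, ← exp_add]
        refine (div_le_one₀ exp_pos).2 ?_
        norm_num
        exact hXj
      have hXi : ∀ i w, w ^ 2 + w + 1 = 0 → ee z d i = w * e →
          x - ee z d i = e * (1 - w + 2 * t) := by
        intro i w _ hi
        rw [hi, hxt]
        ring
      rcases ht1.lt_or_eq with ht2 | ht2
      · -- `x` is close to the root: `lam = 0`
        have hx3e : x ^ 3 + d ^ 3 = t * e ^ 3 * 2 * (1 + 2 * (1 + 3 * t + 2 * t ^ 2)) := by
          have : d ^ 3 = -e ^ 3 := by rw [he3]; ring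
          rw [this, hxt]
          ring
        have ht0 : t ≠ 0 := by
          rintro rfl
          apply hs0
          rw [hx3e]
          ring
        obtain ⟨k, hk⟩ := exists_nu ν ht0
        have hval : ν (x ^ 3 + d ^ 3) = exp (k - 4) := by
          have hA : ν (1 + 3 * t + 2 * t ^ 2) ≤ 1 := by
            refine ν.map_add_le (ν.map_add_le ?_ ?_) ?_
            · rw [map_one]
            · have e6 : (3 : L) = 1 + 2 * 1 := by norm_num
              rw [map_mul, e6, nu_one_add h2 (by rw [map_one]), one_mul]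
              exact ht1
            · rw [map_mul, map_pow]
              calc _ ≤ (1 : ℤᵐ⁰) * 1 ^ 2 := by
                    gcongr
                    exact nu_two_le h2
                _ = 1 := by simp
          rw [hx3e, map_mul, nu_one_add h2 hA, mul_one, map_mul, map_mul, map_pow, hk, he1, h2,
            ← exp_nsmul, ← exp_add, ← exp_add]
          congr 1
          simp
          ring
        rw [hval, isSquare_exp] at hevn
        have hk2 : k ≤ -2 := by
          rw [hk, ← exp_zero, exp_lt_exp] at ht2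
          obtain ⟨m, hm⟩ := hevn
          omega
        refine ⟨0, Or.inl rfl, Or.inr ⟨j, fun i hi => ?_⟩⟩
        rw [mul_zero, add_zero, mul_one]
        refine (h i).near h4l.le ?_
        obtain ⟨w, hw, hwi, -⟩ := hoth i hi
        rw [← he, hXi i w hw hwi, hwi]
        have hu := hunit w t hw ht1
        have hu0 : 1 - w + 2 * t ≠ 0 := by
          intro h'
          rw [h', map_zero] at hu
          exact zero_ne_one hu
        have e5 : (e - w * e) / (e * (1 - w + 2 * t)) - 1 = -(2 * t / (1 - w + 2 * t)) := by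
          rw [div_sub_one (mul_ne_zero he0 hu0), ← neg_div, div_eq_div_iff (mul_ne_zero he0 hu0) hu0]
          ring
        rw [e5, Valuation.map_neg, map_div₀, hu, div_one, map_mul, h2, hk, h4, ← exp_add, exp_lt_exp]
        omega
      · -- `t` is a unit
        obtain ⟨E, hE⟩ : ∃ E : L, E = e / 2 := ⟨_, rfl⟩
        have heE : e = 2 * E := by
          rw [hE]
          ring
        have hE1 : ν E = 1 := by
          rw [hE, map_div₀, he1, h2, div_self exp_ne_zero]
        have hE0 : E ≠ 0 := by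
          rintro rfl
          rw [map_zero] at hE1
          exact zero_ne_one hE1
        have h31 : ν (3 : L) = 1 := by
          have e6 : (3 : L) = 1 + 2 * 1 := by norm_num
          rw [e6, nu_one_add h2 (by rw [map_one])]
        have hx3e : x ^ 3 + d ^ 3 =
            t * E ^ 3 * (3 + 6 * t + 4 * t ^ 2) * 4 ^ 2 := by
          have : d ^ 3 = -e ^ 3 := by rw [he3]; ring
          rw [this, hxt, heE]
          ring
        have hu : Sq ν (t * E ^ 3 * (3 + 6 * t + 4 * t ^ 2)) := by
          refine Sq.of_mul_sq (s := 4) (by norm_num) ?_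
          rw [← hx3e]
          exact hx
        obtain ⟨b, hb, hbu⟩ := hu
        have hA : ν (1 + 3 * t + 2 * t ^ 2) ≤ 1 := by
          refine ν.map_add_le (ν.map_add_le ?_ ?_) ?_
          · rw [map_one]
          · rw [map_mul, h31, one_mul]
            exact ht1
          · rw [map_mul, map_pow]
            calc _ ≤ (1 : ℤᵐ⁰) * 1 ^ 2 := by
                  gcongr
                  exact nu_two_le h2
              _ = 1 := by simp
        have hB : ν (t * E ^ 3 * (3 + 6 * t + 4 * t ^ 2)) = 1 := by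
          have e6 : 3 + 6 * t + 4 * t ^ 2 = 1 + 2 * (1 + 3 * t + 2 * t ^ 2) := by ring
          rw [e6, map_mul, nu_one_add h2 hA, map_mul, map_pow, ht2, hE1]
          simp
        have hb1 : ν b = 1 := by
          have h5 := nu_one h4l.le hbu
          rw [map_div₀, hB, map_pow, one_div, inv_eq_one] at h5
          exact sq_eq_one h5
        have hbu' : ν (t * E ^ 3 * (3 + 6 * t + 4 * t ^ 2) - b ^ 2) < ν 4 := by
          have e6 : t * E ^ 3 * (3 + 6 * t + 4 * t ^ 2) - b ^ 2 =
              b ^ 2 * (t * E ^ 3 * (3 + 6 * t + 4 * t ^ 2) / b ^ 2 - 1) := by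
            rw [mul_sub, mul_div_cancel₀ _ (pow_ne_zero 2 hb), mul_one]
          rw [e6, map_mul, map_pow, hb1, one_pow, one_mul]
          exact hbu
        have hr : ν (1 + 2 * z) = 1 := nu_one_add h2 (nu_z ν hz).le
        have hr0 : 1 + 2 * z ≠ 0 := by
          intro h'
          rw [h', map_zero] at hr
          exact zero_ne_one hr
        have hr2 : (1 + 2 * z) ^ 2 = -3 := by linear_combination 4 * hz
        have hc1 : ν (b / (E ^ 2 * (1 + 2 * z))) = 1 := by
          rw [map_div₀, map_mul, map_pow, hb1, hE1, hr]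
          simp
        obtain ⟨lam, hl, hlam⟩ := exists_lam h2 hz hres hc1
        refine ⟨lam, hl, Or.inr ⟨j, fun i hi => ?_⟩⟩
        obtain ⟨w, hw, hwi, hwz⟩ := hoth i hi
        have hw1 := nu_z ν hw
        have hun := hunit w t hw ht1
        have hu0 : 1 - w + 2 * t ≠ 0 := by
          intro h'
          rw [h', map_zero] at hun
          exact zero_ne_one hun
        have hy : ν (1 + 2 * (t * w ^ 2)) = 1 := by
          refine nu_one_add h2 ?_
          rw [map_mul, map_pow, hw1, one_pow, mul_one]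
          exact ht1
        have hy0 : 1 + 2 * (t * w ^ 2) ≠ 0 := by
          intro h'
          rw [h', map_zero] at hy
          exact zero_ne_one hy
        refine Sq.of_mul_sq (s := 1 + 2 * (t * w ^ 2)) hy0 ?_
        have e5 : a i * (ee z d j - ee z d i) * (1 + d * z ^ (i : ℕ) * lam) *
            (1 + 2 * (t * w ^ 2)) ^ 2 =
            a i * ((ee z d j - ee z d i) * (1 + d * z ^ (i : ℕ) * lam) *
              (1 + 2 * (t * w ^ 2)) ^ 2) := by ring
        rw [e5]
        refine (h i).near h4l.le ?_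
        have hdz : d * z ^ (i : ℕ) = -(2 * w * E) := by
          have : ee z d i = -(d * z ^ (i : ℕ)) := by rw [ee]; ring
          rw [← neg_neg (d * z ^ (i : ℕ)), ← this, hwi, heE]
          ring
        -- the main congruence
        obtain ⟨δ, hδ⟩ : ∃ δ : L, δ = 3 * E * lam + t * (3 + 6 * t + 4 * t ^ 2) := ⟨_, rfl⟩
        have hδ4 : ν δ ≤ ν 4 := by
          have e6 : δ = -(3 * E * ((b / (E ^ 2 * (1 + 2 * z))) ^ 2 - lam)) +
              (t * E ^ 3 * (3 + 6 * t + 4 * t ^ 2) - b ^ 2) / E ^ 3 := by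
            rw [hδ, div_pow, mul_pow, hr2]
            field_simp
            ring
          rw [e6]
          refine ν.map_add_le ?_ ?_
          · rw [Valuation.map_neg, map_mul, map_mul, h31, hE1, one_mul, one_mul]
            exact hlam
          · rw [map_div₀, map_pow, hE1, one_pow, div_one]
            exact hbu'.le
        have hQ : 3 * ((1 - w) * (1 - 2 * w * E * lam) * (1 + 2 * (t * w ^ 2)) ^ 2 -
            (1 - w + 2 * t)) =
            2 * (4 * (-3 * t + 6 * t ^ 2 + t ^ 3 - 8 * t ^ 4 - 8 * t ^ 5 + w * (3 * t ^ 2 -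
              7 * t ^ 3 - 10 * t ^ 4 - 4 * t ^ 5))) - 2 * (w * δ * (1 - w) * (1 + 2 * (t * w ^ 2)) ^ 2) := by
          rw [hδ]
          linear_combination ((18 * t - 48 * t ^ 2 - 8 * t ^ 3 + 64 * t ^ 4 + 64 * t ^ 5) +
            w * (-12 * t + 36 * t ^ 2 + 72 * t ^ 3 + 16 * t ^ 4 - 32 * t ^ 5) +
            w ^ 2 * (-72 * t ^ 3 - 80 * t ^ 4 - 32 * t ^ 5) +
            w ^ 3 * (-12 * t ^ 2 + 48 * t ^ 3 + 96 * t ^ 4 + 64 * t ^ 5) +
            w ^ 4 * (-24 * t ^ 3 - 48 * t ^ 4 - 32 * t ^ 5)) * hw
        have hQ2 : ν ((1 - w) * (1 - 2 * w * E * lam) * (1 + 2 * (t * w ^ 2)) ^ 2 -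
            (1 - w + 2 * t)) < ν 4 := by
          have e7 : ν (3 * ((1 - w) * (1 - 2 * w * E * lam) * (1 + 2 * (t * w ^ 2)) ^ 2 -
            (1 - w + 2 * t))) < ν 4 := by
            have hsm : ∀ {u v : L}, ν u ≤ 1 → ν v ≤ ν 4 → ν (2 * (v * u)) < ν 4 := by
              intro u v hu hv
              rw [map_mul, map_mul, h2]
              calc exp (-1) * (ν v * ν u) ≤ exp (-1) * (ν 4 * 1) := by gcongr
                _ < ν 4 := by
                  rw [mul_one, h4, ← exp_add, exp_lt_exp]
                  omega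
            rw [hQ]
            refine ν.map_sub_lt ?_ ?_
            · refine hsm ?_ le_rfl
              obtain ⟨T, hT⟩ : ∃ T : ν.integer, ν.integer.subtype T = t := ⟨⟨t, ht1⟩, rfl⟩
              obtain ⟨W, hW⟩ : ∃ W : ν.integer, ν.integer.subtype W = w := ⟨⟨w, hw1.le⟩, rfl⟩
              have e11 : -3 * t + 6 * t ^ 2 + t ^ 3 - 8 * t ^ 4 - 8 * t ^ 5 + w * (3 * t ^ 2 -
                  7 * t ^ 3 - 10 * t ^ 4 - 4 * t ^ 5) = ν.integer.subtype (-3 * T + 6 * T ^ 2 +
                  T ^ 3 - 8 * T ^ 4 - 8 * T ^ 5 + W * (3 * T ^ 2 - 7 * T ^ 3 - 10 * T ^ 4 -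
                  4 * T ^ 5)) := by
                simp only [map_add, map_mul, map_sub, map_neg, map_pow, map_ofNat, hT, hW]
              rw [e11]
              exact (-3 * T + 6 * T ^ 2 + T ^ 3 - 8 * T ^ 4 - 8 * T ^ 5 + W * (3 * T ^ 2 -
                7 * T ^ 3 - 10 * T ^ 4 - 4 * T ^ 5)).2
            · have e9 : w * δ * (1 - w) * (1 + 2 * (t * w ^ 2)) ^ 2 =
                δ * (w * (1 - w + 2 * 0) * (1 + 2 * (t * w ^ 2)) ^ 2) := by ring
              rw [e9]
              refine hsm ?_ hδ4
              rw [map_mul, map_mul, hw1, hunit w 0 hw (by rw [map_zero]; exact zero_le'), map_pow, hy]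
              simp
          rwa [map_mul, h31, one_mul] at e7
        have e10 : (ee z d j - ee z d i) * (1 + d * z ^ (i : ℕ) * lam) *
            (1 + 2 * (t * w ^ 2)) ^ 2 / (x - ee z d i) - 1 =
            ((1 - w) * (1 - 2 * w * E * lam) * (1 + 2 * (t * w ^ 2)) ^ 2 - (1 - w + 2 * t)) /
              (1 - w + 2 * t) := by
          rw [hXi i w hw hwi, ← he, hwi, hdz, div_sub_one (mul_ne_zero he0 hu0),
            div_eq_div_iff (mul_ne_zero he0 hu0) hu0]
          ring
        rw [e10, map_div₀, hun, div_one]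
        exact hQ2

end Pool.Agent.Lib.MP_1a91b9_ntE.C
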