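import Pool.Agent.Lib.MP_1a91b9_ntE.C.DefE
import Pool.Agent.Lib.MP_1a91b9_ntE.C.VE

/-!
# MP_1a91b9_nt (TwistDensity), even classes, part C: the local condition at `2`
-/

set_option autoImplicit false
set_option linter.unusedSectionVars false
set_option linter.unusedVariables false
set_option linter.unusedSimpArgs false

namespace Pool.Agent.Lib.MP_1a91b9_ntE.C

open NumberField Finset WithZero IsDedekindDomain Pool.Agent.Lib.MP_1a91b9_ntT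
open Pool.Agent.Lib.MP_1a91b9_ntH (om_quad F4 wO wO_quad s3 Pq qd DD dl red half qs sgz red_eq_zero_iff red_w red_coord)
open Pool.Agent.Lib.MP_1a91b9_ntH.C (GLoc ee Sq Cr coe_s3 res_two four_val Sq.ne Sq.mul Sq.of_isSquare Sq.cancel Sq.near
  Sq.one Sq.of_mul_sq prod_split nu_four_le nu_four)
open Pool.Agent.Lib.MP_1a91b9_ntH.C.Sel (pv prime_two io val_two pv_one pv_self two_mem pow_three_sq)
open Pool.Agent.Lib.MP_1a91b9_ntH2 (dlc tw)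
open Pool.Agent.Lib.MP_1a91b9_ntH2.C (dlc_ne_zero Cr.dlc)

noncomputable section

/-! ### the classes of `1 + 2 x w ^ n` modulo squares and modulo `8` -/

def x1 : Fin 3 → ZMod 2 := ![1, 0, 1]

def x2 : Fin 3 → ZMod 2 := ![0, 1, 1]

def x3 (c : F4) : Fin 3 → ZMod 2 := ![c.b, (F4.w * c).b, (F4.w * F4.w * c).b]

theorem not_dvd_odd (y : 𝓞 K) : ¬ (2 : 𝓞 K) ∣ -3 - 2 * y := by
  intro h
  have h2 : (2 : 𝓞 K) ∣ 1 := by
    have h3 := dvd_add h (dvd_mul_right (2 : 𝓞 K) (2 + y))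
    have e : -3 - 2 * y + 2 * (2 + y) = (1 : 𝓞 K) := by ring
    rwa [e] at h3
  exact prime_two.not_isUnit (isUnit_of_dvd_one h2)

theorem not_dvd_three : ¬ (2 : 𝓞 K) ∣ -3 := by
  have h := not_dvd_odd 0
  rwa [mul_zero, sub_zero] at h

theorem tab00 (n : Fin 3) (Y : 𝓞 K) : ∃ s t : 𝓞 K, ¬ 2 ∣ s ∧
    (1 + 2 * (1 + 2 * (0 + 2 * Y)) * wO ^ (n : ℕ)) * ((-1) ^ (x1 n).val * s3 ^ (x2 n).val *
      (1 + 4 * wO) ^ (x3 ⟨0, 0⟩ n).val) - s ^ 2 = 8 * t := by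
  have hs : s3 = 1 + 2 * wO := rfl
  fin_cases n
  · refine ⟨-3 - 2 * wO, (-1) + (-1) * Y + (-1) * wO, not_dvd_odd wO, ?_⟩
    show (1 + 2 * (1 + 2 * (0 + 2 * Y)) * wO ^ 0) * ((-1) ^ 1 * s3 ^ 0 *
      (1 + 4 * wO) ^ 0) - (-3 - 2 * wO) ^ 2 = 8 * ((-1) + (-1) * Y + (-1) * wO)
    rw [hs]
    linear_combination ((-4)) * wO_quad
  · refine ⟨-3 - 2 * wO, (-1) + (-2) * Y + (-1) * wO + (-1) * wO * Y, not_dvd_odd wO, ?_⟩
    show (1 + 2 * (1 + 2 * (0 + 2 * Y)) * wO ^ 1) * ((-1) ^ 0 * s3 ^ 1 *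
      (1 + 4 * wO) ^ 0) - (-3 - 2 * wO) ^ 2 = 8 * ((-1) + (-2) * Y + (-1) * wO + (-1) * wO * Y)
    rw [hs]
    linear_combination (16 * Y) * wO_quad
  · refine ⟨-3 - 2 * wO, (-1) + (-1) * Y + (-1) * wO + 1 * wO * Y, not_dvd_odd wO, ?_⟩
    show (1 + 2 * (1 + 2 * (0 + 2 * Y)) * wO ^ 2) * ((-1) ^ 1 * s3 ^ 1 *
      (1 + 4 * wO) ^ 0) - (-3 - 2 * wO) ^ 2 = 8 * ((-1) + (-1) * Y + (-1) * wO + 1 * wO * Y)
    rw [hs]
    linear_combination ((-2) + 8 * Y + (-4) * wO + (-16) * wO * Y) * wO_quad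

theorem tab10 (n : Fin 3) (Y : 𝓞 K) : ∃ s t : 𝓞 K, ¬ 2 ∣ s ∧
    (1 + 2 * (1 + 2 * (1 + 2 * Y)) * wO ^ (n : ℕ)) * ((-1) ^ (x1 n).val * s3 ^ (x2 n).val *
      (1 + 4 * wO) ^ (x3 ⟨1, 0⟩ n).val) - s ^ 2 = 8 * t := by
  have hs : s3 = 1 + 2 * wO := rfl
  fin_cases n
  · refine ⟨-3, (-2) + (-1) * Y, not_dvd_three, ?_⟩
    show (1 + 2 * (1 + 2 * (1 + 2 * Y)) * wO ^ 0) * ((-1) ^ 1 * s3 ^ 0 *
      (1 + 4 * wO) ^ 0) - (-3) ^ 2 = 8 * ((-2) + (-1) * Y)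
    rw [hs]
    linear_combination (0) * wO_quad
  · refine ⟨-3 - 2 * wO, 2 * Y + (-5) * wO + (-5) * wO * Y, not_dvd_odd wO, ?_⟩
    show (1 + 2 * (1 + 2 * (1 + 2 * Y)) * wO ^ 1) * ((-1) ^ 0 * s3 ^ 1 *
      (1 + 4 * wO) ^ 1) - (-3 - 2 * wO) ^ 2 = 8 * (2 * Y + (-5) * wO + (-5) * wO * Y)
    rw [hs]
    linear_combination ((-8) + (-16) * Y + 48 * wO + 64 * wO * Y) * wO_quad
  · refine ⟨-3, (-4) + (-5) * Y + (-5) * wO + (-7) * wO * Y, not_dvd_three, ?_⟩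
    show (1 + 2 * (1 + 2 * (1 + 2 * Y)) * wO ^ 2) * ((-1) ^ 1 * s3 ^ 1 *
      (1 + 4 * wO) ^ 1) - (-3) ^ 2 = 8 * ((-4) + (-5) * Y + (-5) * wO + (-7) * wO * Y)
    rw [hs]
    linear_combination (22 + 40 * Y + 12 * wO + 16 * wO * Y + (-48) * wO ^ 2 + (-64) * wO ^ 2 * Y) * wO_quad

theorem tab01 (n : Fin 3) (Y : 𝓞 K) : ∃ s t : 𝓞 K, ¬ 2 ∣ s ∧
    (1 + 2 * (1 + 2 * (wO + 2 * Y)) * wO ^ (n : ℕ)) * ((-1) ^ (x1 n).val * s3 ^ (x2 n).val *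
      (1 + 4 * wO) ^ (x3 ⟨0, 1⟩ n).val) - s ^ 2 = 8 * t := by
  have hs : s3 = 1 + 2 * wO := rfl
  fin_cases n
  · refine ⟨-3 - 2 * wO, 1 + (-1) * Y + (-1) * wO + (-4) * wO * Y, not_dvd_odd wO, ?_⟩
    show (1 + 2 * (1 + 2 * (wO + 2 * Y)) * wO ^ 0) * ((-1) ^ 1 * s3 ^ 0 *
      (1 + 4 * wO) ^ 1) - (-3 - 2 * wO) ^ 2 = 8 * (1 + (-1) * Y + (-1) * wO + (-4) * wO * Y)
    rw [hs]
    linear_combination ((-20)) * wO_quad
  · refine ⟨-3, 1 + 2 * Y + 2 * wO + (-5) * wO * Y, not_dvd_three, ?_⟩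
    show (1 + 2 * (1 + 2 * (wO + 2 * Y)) * wO ^ 1) * ((-1) ^ 0 * s3 ^ 1 *
      (1 + 4 * wO) ^ 1) - (-3) ^ 2 = 8 * (1 + 2 * Y + 2 * wO + (-5) * wO * Y)
    rw [hs]
    linear_combination ((-16) + (-16) * Y + 8 * wO + 64 * wO * Y + 32 * wO ^ 2) * wO_quad
  · refine ⟨-3, (-2) + (-1) * Y + (-1) * wO + 1 * wO * Y, not_dvd_three, ?_⟩
    show (1 + 2 * (1 + 2 * (wO + 2 * Y)) * wO ^ 2) * ((-1) ^ 1 * s3 ^ 1 *
      (1 + 4 * wO) ^ 0) - (-3) ^ 2 = 8 * ((-2) + (-1) * Y + (-1) * wO + 1 * wO * Y)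
    rw [hs]
    linear_combination (6 + 8 * Y + (-16) * wO * Y + (-8) * wO ^ 2) * wO_quad

theorem tab11 (n : Fin 3) (Y : 𝓞 K) : ∃ s t : 𝓞 K, ¬ 2 ∣ s ∧
    (1 + 2 * (1 + 2 * ((1 + wO) + 2 * Y)) * wO ^ (n : ℕ)) * ((-1) ^ (x1 n).val * s3 ^ (x2 n).val *
      (1 + 4 * wO) ^ (x3 ⟨1, 1⟩ n).val) - s ^ 2 = 8 * t := by
  have hs : s3 = 1 + 2 * wO := rfl
  fin_cases n
  · refine ⟨-3, (-1) * Y + (-2) * wO + (-4) * wO * Y, not_dvd_three, ?_⟩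
    show (1 + 2 * (1 + 2 * ((1 + wO) + 2 * Y)) * wO ^ 0) * ((-1) ^ 1 * s3 ^ 0 *
      (1 + 4 * wO) ^ 1) - (-3) ^ 2 = 8 * ((-1) * Y + (-2) * wO + (-4) * wO * Y)
    rw [hs]
    linear_combination ((-16)) * wO_quad
  · refine ⟨-3, (-2) + (-2) * Y + (-1) * wO + (-1) * wO * Y, not_dvd_three, ?_⟩
    show (1 + 2 * (1 + 2 * ((1 + wO) + 2 * Y)) * wO ^ 1) * ((-1) ^ 0 * s3 ^ 1 *
      (1 + 4 * wO) ^ 0) - (-3) ^ 2 = 8 * ((-2) + (-2) * Y + (-1) * wO + (-1) * wO * Y)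
    rw [hs]
    linear_combination (8 + 16 * Y + 8 * wO) * wO_quad
  · refine ⟨-3 - 2 * wO, (-5) * Y + (-5) * wO + (-7) * wO * Y, not_dvd_odd wO, ?_⟩
    show (1 + 2 * (1 + 2 * ((1 + wO) + 2 * Y)) * wO ^ 2) * ((-1) ^ 1 * s3 ^ 1 *
      (1 + 4 * wO) ^ 1) - (-3 - 2 * wO) ^ 2 = 8 * ((-5) * Y + (-5) * wO + (-7) * wO * Y)
    rw [hs]
    linear_combination ((-10) + 40 * Y + 32 * wO + 16 * wO * Y + (-40) * wO ^ 2 + (-64) * wO ^ 2 * Y + (-32) * wO ^ 3) * wO_quad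

theorem tab (c : F4) (n : Fin 3) (x : 𝓞 K) (h : Cr x c) : ∃ s t : 𝓞 K, ¬ 2 ∣ s ∧
    (1 + 2 * x * wO ^ (n : ℕ)) * ((-1) ^ (x1 n).val * s3 ^ (x2 n).val *
      (1 + 4 * wO) ^ (x3 c n).val) - s ^ 2 = 8 * t := by
  obtain ⟨y, rfl, hy⟩ := h
  have hl : ∀ l : 𝓞 K, red l = c → ∃ Y, y = l + 2 * Y := by
    intro l hl
    have h1 : red (y - l) = 0 := by rw [map_sub, hy, hl, sub_self]
    obtain ⟨Y, hY⟩ := red_eq_zero_iff.1 h1
    exact ⟨Y, by linear_combination hY⟩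
  have h0 : ∀ x : ZMod 2, x = 0 ∨ x = 1 := by decide
  obtain ⟨a, b⟩ := c
  rcases h0 a with rfl | rfl <;> rcases h0 b with rfl | rfl
  · obtain ⟨Y, rfl⟩ := hl 0 (by rw [map_zero]; rfl)
    exact tab00 n Y
  · obtain ⟨Y, rfl⟩ := hl wO red_w
    exact tab01 n Y
  · obtain ⟨Y, rfl⟩ := hl 1 (by rw [map_one]; rfl)
    exact tab10 n Y
  · obtain ⟨Y, rfl⟩ := hl (1 + wO) (by rw [map_add, map_one, red_w]; rfl)
    exact tab11 n Y

theorem sq_of_dvd {x s t : 𝓞 K} (hs : ¬ 2 ∣ s) (h : x - s ^ 2 = 8 * t) :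
    Sq ((pv 2 prime_two).valuation K) (x : K) := by
  have hs1 := pv_one prime_two hs
  have hs0 : (s : K) ≠ 0 := by
    intro h0
    rw [h0, map_zero] at hs1
    exact zero_ne_one hs1
  refine ⟨s, hs0, ?_⟩
  have e : (x : K) / (s : K) ^ 2 - 1 = (2 * (4 * (t : K))) / (s : K) ^ 2 := by
    rw [div_sub_one (pow_ne_zero 2 hs0)]
    congr 1
    have h2 := congrArg (fun z : 𝓞 K => (z : K)) h
    have h8 : ((8 : 𝓞 K) : K) = 8 := rfl
    have h2' : (x : K) - (s : K) ^ 2 = ((8 : 𝓞 K) : K) * (t : K) := by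
      push_cast at h2
      exact h2
    linear_combination h2' + (t : K) * h8
  have ht : (pv 2 prime_two).valuation K (t : K) ≤ 1 :=
    (pv 2 prime_two).valuation_le_one t
  rw [e, map_div₀, map_pow, hs1, one_pow, div_one, map_mul, map_mul, val_two, nu_four val_two]
  calc _ ≤ (exp (-1) : ℤᵐ⁰) * (exp (-2) * 1) := by gcongr
    _ < exp (-2) := by
      rw [mul_one, ← exp_add, exp_lt_exp]
      norm_num

theorem pe_eq (c : F4) (m i : Fin 3) : pe c (F4.w ^ (2 * (m : ℕ))) i =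
    (-1) ^ (x1 (i + m)).val * s3 ^ (x2 (i + m)).val * (1 + 4 * wO) ^ (x3 c (i + m)).val := by
  have h : ∀ (c : F4) (m i : Fin 3), io (F4.w * F4.w ^ (2 * (m : ℕ))) i = x1 (i + m) ∧
      io (F4.w ^ (2 * (m : ℕ))) i = x2 (i + m) ∧
      io (F4.cj c * F4.w ^ (2 * (m : ℕ))) i = x3 c (i + m) := by decide
  obtain ⟨h1, h2, h3⟩ := h c m i
  rw [pe, h1, h2, h3]

theorem pe_zero (c : F4) (i : Fin 3) : pe c 0 i = 1 := by
  have h : ∀ (c : F4) (i : Fin 3), io (F4.w * 0) i = 0 ∧ io 0 i = 0 ∧ io (F4.cj c * 0) i = 0 := by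
    decide
  obtain ⟨h1, h2, h3⟩ := h c i
  rw [pe, h1, h2, h3]
  simp

theorem stg_zero (D : 𝓞 K) (i : Fin 3) : stg D 0 i = 1 := by
  have h : ∀ (i : Fin 3), io 0 i = 0 ∧ io (F4.w * F4.w * 0) i = 0 := by decide
  obtain ⟨h1, h2⟩ := h i
  rw [stg, h1, h2]
  simp

theorem om_cube : om ^ 3 = 1 := om_spec.pow_eq_one

theorem om_add (m i : Fin 3) : om ^ (i : ℕ) * om ^ (m : ℕ) = om ^ ((i + m : Fin 3) : ℕ) := by
  have h := om_cube
  rw [← pow_add]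
  have h2 : ∀ m i : Fin 3, (i : ℕ) + (m : ℕ) = ((i + m : Fin 3) : ℕ) ∨
      (i : ℕ) + (m : ℕ) = ((i + m : Fin 3) : ℕ) + 3 := by decide
  rcases h2 m i with h1 | h1
  · rw [h1]
  · rw [h1, pow_add, h, mul_one]

theorem pe_ne (c z : F4) (i : Fin 3) : ((pe c z i : 𝓞 K) : K) ≠ 0 := by
  have h1 : (1 + 4 * wO : 𝓞 K) ≠ 0 := by
    intro h
    have h2 : (2 : 𝓞 K) ∣ 1 := ⟨-(2 * wO), by linear_combination h⟩
    exact prime_two.not_isUnit (isUnit_of_dvd_one h2)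
  intro h
  have h3 : pe c z i = 0 := RingOfIntegers.ext h
  exact mul_ne_zero (mul_ne_zero (pow_ne_zero _ (neg_ne_zero.2 one_ne_zero))
    (pow_ne_zero _ Pool.Agent.Lib.MP_1a91b9_ntH.C.Sel.prime_s3.ne_zero)) (pow_ne_zero _ h1) h3

theorem stg_ne {D : 𝓞 K} (hD : D ≠ 0) (c : F4) (i : Fin 3) : ((stg D c i : 𝓞 K) : K) ≠ 0 := by
  intro h
  have h3 : stg D c i = 0 := RingOfIntegers.ext h
  exact mul_ne_zero (pow_ne_zero _ (mul_ne_zero hD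
    Pool.Agent.Lib.MP_1a91b9_ntH.C.Sel.prime_s3.ne_zero)) (pow_ne_zero _ (neg_ne_zero.2 one_ne_zero)) h3

theorem pe_prod (c z : F4) : IsSquare (pe c z 0 * pe c z 1 * pe c z 2) := by
  have h1 := pow_three_sq (-1 : 𝓞 K) (F4.w * z).a (F4.w * z).b
  have h2 := pow_three_sq (s3 : 𝓞 K) z.a z.b
  have h3 := pow_three_sq (1 + 4 * wO : 𝓞 K) (F4.cj c * z).a (F4.cj c * z).b
  have e : pe c z 0 * pe c z 1 * pe c z 2 =
      ((-1) ^ (F4.w * z).b.val * (-1) ^ (F4.w * z).a.val * (-1) ^ ((F4.w * z).a + (F4.w * z).b).val) *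
      (s3 ^ z.b.val * s3 ^ z.a.val * s3 ^ (z.a + z.b).val) *
      ((1 + 4 * wO) ^ (F4.cj c * z).b.val * (1 + 4 * wO) ^ (F4.cj c * z).a.val *
        (1 + 4 * wO) ^ ((F4.cj c * z).a + (F4.cj c * z).b).val) := by
    show ((-1) ^ (F4.w * z).b.val * s3 ^ z.b.val * (1 + 4 * wO) ^ (F4.cj c * z).b.val) *
      ((-1) ^ (F4.w * z).a.val * s3 ^ z.a.val * (1 + 4 * wO) ^ (F4.cj c * z).a.val) *
      ((-1) ^ ((F4.w * z).a + (F4.w * z).b).val * s3 ^ (z.a + z.b).val *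
        (1 + 4 * wO) ^ ((F4.cj c * z).a + (F4.cj c * z).b).val) = _
    ring
  rw [e]
  exact (h1.mul h2).mul h3

theorem stg_prod (D : 𝓞 K) (c : F4) : IsSquare (stg D c 0 * stg D c 1 * stg D c 2) := by
  have h1 := pow_three_sq (D * s3) c.a c.b
  have h2 := pow_three_sq (-1 : 𝓞 K) (F4.w * F4.w * c).a (F4.w * F4.w * c).b
  have e : stg D c 0 * stg D c 1 * stg D c 2 =
      ((D * s3) ^ c.b.val * (D * s3) ^ c.a.val * (D * s3) ^ (c.a + c.b).val) *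
      ((-1) ^ (F4.w * F4.w * c).b.val * (-1) ^ (F4.w * F4.w * c).a.val *
        (-1) ^ ((F4.w * F4.w * c).a + (F4.w * F4.w * c).b).val) := by
    show ((D * s3) ^ c.b.val * (-1) ^ (F4.w * F4.w * c).b.val) *
      ((D * s3) ^ c.a.val * (-1) ^ (F4.w * F4.w * c).a.val) *
      ((D * s3) ^ (c.a + c.b).val * (-1) ^ ((F4.w * F4.w * c).a + (F4.w * F4.w * c).b).val) = _
    ring
  rw [e]
  exact h1.mul h2

theorem ee_stgV (D' : 𝓞 K) (j i : Fin 3) (hij : i ≠ j) : ∃ r : K, r ≠ 0 ∧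
    ee om ((D' : 𝓞 K) : K) j - ee om ((D' : 𝓞 K) : K) i =
      ((stg D' (F4.w ^ (j : ℕ)) i : 𝓞 K) : K) * r ^ 2 := by
  have hom : om ≠ 0 := om_spec.ne_zero (by norm_num)
  have h1 : ((1 : ZMod 2)).val = 1 := rfl
  have h0 : ((0 : ZMod 2)).val = 0 := rfl
  obtain ⟨D, hD⟩ : ∃ D : K, D = ((D' : 𝓞 K) : K) := ⟨_, rfl⟩
  have k : ∀ (c : F4) (i : Fin 3) (x y : ZMod 2), io c i = x → io (F4.w * F4.w * c) i = y →
      ((stg D' c i : 𝓞 K) : K) = (D * (1 + 2 * om)) ^ x.val * (-1) ^ y.val := by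
    intro c i x y hx hy
    unfold stg
    rw [hx, hy, hD, ← coe_s3]
    push_cast
    rfl
  rw [← hD]
  unfold ee
  fin_cases j <;> fin_cases i
  · exact absurd rfl hij
  · refine ⟨om, hom, ?_⟩
    show -(om ^ 0 * D) - -(om ^ 1 * D) = ((stg D' (F4.w ^ 0) 1 : 𝓞 K) : K) * (om) ^ 2
    rw [k _ _ 1 1 (by decide) (by decide)]
    simp only [h1, h0, pow_one, pow_zero]
    linear_combination (D * (2 * om - 1)) * om_quad
  · refine ⟨om ^ 2, pow_ne_zero 2 hom, ?_⟩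
    show -(om ^ 0 * D) - -(om ^ 2 * D) = ((stg D' (F4.w ^ 0) 2 : 𝓞 K) : K) * (om ^ 2) ^ 2
    rw [k _ _ 1 0 (by decide) (by decide)]
    simp only [h1, h0, pow_one, pow_zero]
    linear_combination (D * (-2 * om ^ 3 + om ^ 2 + om - 1)) * om_quad
  · refine ⟨om, hom, ?_⟩
    show -(om ^ 1 * D) - -(om ^ 0 * D) = ((stg D' (F4.w ^ 1) 0 : 𝓞 K) : K) * (om) ^ 2
    rw [k _ _ 1 0 (by decide) (by decide)]
    simp only [h1, h0, pow_one, pow_zero]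
    linear_combination (D * (1 - 2 * om)) * om_quad
  · exact absurd rfl hij
  · refine ⟨1, one_ne_zero, ?_⟩
    show -(om ^ 1 * D) - -(om ^ 2 * D) = ((stg D' (F4.w ^ 1) 2 : 𝓞 K) : K) * (1) ^ 2
    rw [k _ _ 1 1 (by decide) (by decide)]
    simp only [h1, h0, pow_one, pow_zero]
    linear_combination (D) * om_quad
  · refine ⟨om ^ 2, pow_ne_zero 2 hom, ?_⟩
    show -(om ^ 2 * D) - -(om ^ 0 * D) = ((stg D' (F4.w ^ 2) 0 : 𝓞 K) : K) * (om ^ 2) ^ 2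
    rw [k _ _ 1 1 (by decide) (by decide)]
    simp only [h1, h0, pow_one, pow_zero]
    linear_combination (D * (2 * om ^ 3 - om ^ 2 - om + 1)) * om_quad
  · refine ⟨1, one_ne_zero, ?_⟩
    show -(om ^ 2 * D) - -(om ^ 1 * D) = ((stg D' (F4.w ^ 2) 1 : 𝓞 K) : K) * (1) ^ 2
    rw [k _ _ 1 0 (by decide) (by decide)]
    simp only [h1, h0, pow_one, pow_zero]
    linear_combination (-D) * om_quad
  · exact absurd rfl hij

theorem sq_trans {ν : Valuation K ℤᵐ⁰} (h4 : ν 4 ≤ 1) {u v w : K} (h : Sq ν (u * v))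
    (h' : Sq ν (v * w)) : Sq ν (u * w) := by
  have hv : v ≠ 0 := fun h0 => (h.ne h4) (by rw [h0, mul_zero])
  refine Sq.of_mul_sq hv ?_
  have h3 := h.mul h4 h'
  have e : u * v * (v * w) = u * w * v ^ 2 := by ring
  rwa [e] at h3

/-- **the local condition at `2` for `2 dlc c S`** -/
theorem loc_e2 : LocE2 := by
  intro c S a ha hp h
  have h2 := val_two
  have h4 : (pv 2 prime_two).valuation K 4 ≤ 1 := (nu_four_le h2).le
  have hcr := Cr.dlc c S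
  have hdl : (pv 2 prime_two).valuation K ((dlc c S : 𝓞 K) : K) = 1 := by
    apply pv_one
    intro h0
    obtain ⟨y, hy, -⟩ := hcr
    rw [hy] at h0
    have h2 : (2 : 𝓞 K) ∣ 1 := by
      have h3 := dvd_sub h0 (dvd_mul_right 2 y)
      rwa [add_sub_cancel_right] at h3
    exact prime_two.not_isUnit (isUnit_of_dvd_one h2)
  have hdc : ((dle c S : 𝓞 K) : K) = 2 * ((dlc c S : 𝓞 K) : K) := by
    unfold dle
    push_cast
    rfl
  have hd : (pv 2 prime_two).valuation K ((dle c S : 𝓞 K) : K) = exp (-1) := by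
    rw [hdc, map_mul, h2, hdl, mul_one]
  have hdl0 : dlc c S ≠ 0 := dlc_ne_zero c S
  have hdle0 : dle c S ≠ 0 := mul_ne_zero prime_two.ne_zero hdl0
  obtain ⟨lam, hl, H⟩ := loc_even2 om_quad h2 (res_two two_mem) hd a h
  have key : ∃ z : F4, ∀ i : Fin 3, Sq ((pv 2 prime_two).valuation K)
      ((1 + ((dle c S : 𝓞 K) : K) * om ^ (i : ℕ) * lam) * ((pe c z i : 𝓞 K) : K)) := by
    rcases eq_or_ne lam 0 with rfl | hl0
    · refine ⟨0, fun i => ?_⟩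
      rw [pe_zero, mul_zero, add_zero, one_mul]
      refine Sq.of_isSquare ⟨1, ?_⟩ ?_
      · simp
      · simp
    · obtain ⟨m, hm⟩ : ∃ m : Fin 3, lam = om ^ (m : ℕ) := by
        rcases hl with hl | hl | hl | hl
        · exact absurd hl hl0
        · exact ⟨0, by rw [hl]; simp⟩
        · exact ⟨1, by rw [hl]; simp⟩
        · exact ⟨2, by rw [hl]; simp⟩
      refine ⟨F4.w ^ (2 * (m : ℕ)), fun i => ?_⟩
      obtain ⟨s, t, hs, hst⟩ := tab c (i + m) (dlc c S) hcr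
      have h5 := sq_of_dvd hs hst
      have e : (((1 + 2 * dlc c S * wO ^ ((i + m : Fin 3) : ℕ)) * ((-1) ^ (x1 (i + m)).val *
          s3 ^ (x2 (i + m)).val * (1 + 4 * wO) ^ (x3 c (i + m)).val) : 𝓞 K) : K) =
          (1 + ((dle c S : 𝓞 K) : K) * om ^ (i : ℕ) * lam) *
            ((pe c (F4.w ^ (2 * (m : ℕ))) i : 𝓞 K) : K) := by
        rw [pe_eq, hm, mul_assoc ((dle c S : 𝓞 K) : K), om_add, hdc]
        generalize (-1) ^ (x1 (i + m)).val * s3 ^ (x2 (i + m)).val *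
          (1 + 4 * wO) ^ (x3 c (i + m)).val = y
        push_cast
        rfl
      rwa [e] at h5
  obtain ⟨z, hz⟩ := key
  rcases H with H | ⟨j, H⟩
  · refine ⟨0, z, fun i => ?_⟩
    rw [stg_zero]
    have e : a i * ((1 : 𝓞 K) : K) = a i := mul_one _
    rw [e]
    exact sq_trans h4 (H i) (hz i)
  · refine ⟨F4.w ^ (j : ℕ), z, ?_⟩
    have hij : ∀ i, i ≠ j → Sq ((pv 2 prime_two).valuation K)
        (a i * ((stg (dle c S) (F4.w ^ (j : ℕ)) i : 𝓞 K) : K) * ((pe c z i : 𝓞 K) : K)) := by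
      intro i hi
      obtain ⟨r, hr, he⟩ := ee_stgV (dle c S) j i hi
      have h5 := sq_trans h4 (H i hi) (hz i)
      rw [he] at h5
      refine Sq.of_mul_sq hr ?_
      have e : a i * ((stg (dle c S) (F4.w ^ (j : ℕ)) i : 𝓞 K) : K) * ((pe c z i : 𝓞 K) : K) * r ^ 2 =
          a i * (((stg (dle c S) (F4.w ^ (j : ℕ)) i : 𝓞 K) : K) * r ^ 2) *
            ((pe c z i : 𝓞 K) : K) := by ring
      rwa [e]
    intro i
    by_cases hi : i = j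
    · subst hi
      obtain ⟨f, hf⟩ : ∃ f : Fin 3 → K, ∀ l, f l =
          a l * ((stg (dle c S) (F4.w ^ (i : ℕ)) l : 𝓞 K) : K) * ((pe c z l : 𝓞 K) : K) :=
        ⟨_, fun _ => rfl⟩
      obtain ⟨k, l, hk, hl', -, -, hprod⟩ := prod_split f i
      have hfsq : IsSquare (f 0 * f 1 * f 2) := by
        obtain ⟨r, hr⟩ := hp
        obtain ⟨s, hs⟩ := stg_prod (dle c S) (F4.w ^ (i : ℕ))
        obtain ⟨t, ht⟩ := pe_prod c z
        refine ⟨r * (s : K) * (t : K), ?_⟩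
        have hs' : ((stg (dle c S) (F4.w ^ (i : ℕ)) 0 : 𝓞 K) : K) *
            ((stg (dle c S) (F4.w ^ (i : ℕ)) 1 : 𝓞 K) : K) *
            ((stg (dle c S) (F4.w ^ (i : ℕ)) 2 : 𝓞 K) : K) = (s : K) * (s : K) := by
          have := congrArg (fun x : 𝓞 K => (x : K)) hs
          push_cast at this
          exact this
        have ht' : ((pe c z 0 : 𝓞 K) : K) * ((pe c z 1 : 𝓞 K) : K) * ((pe c z 2 : 𝓞 K) : K) =
            (t : K) * (t : K) := by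
          have := congrArg (fun x : 𝓞 K => (x : K)) ht
          push_cast at this
          exact this
        rw [hf, hf, hf]
        calc _ = (a 0 * a 1 * a 2) * (((stg (dle c S) (F4.w ^ (i : ℕ)) 0 : 𝓞 K) : K) *
            ((stg (dle c S) (F4.w ^ (i : ℕ)) 1 : 𝓞 K) : K) *
            ((stg (dle c S) (F4.w ^ (i : ℕ)) 2 : 𝓞 K) : K)) *
            (((pe c z 0 : 𝓞 K) : K) * ((pe c z 1 : 𝓞 K) : K) * ((pe c z 2 : 𝓞 K) : K)) := by ring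
          _ = _ := by
            rw [hr, hs', ht']
            ring
      have hf0 : ∀ l, f l ≠ 0 := fun l => by
        rw [hf]
        exact mul_ne_zero (mul_ne_zero (ha l) (stg_ne hdle0 _ _)) (pe_ne _ _ _)
      have h3 : Sq ((pv 2 prime_two).valuation K) (f i * (f k * f l)) := by
        rw [← hprod]
        exact Sq.of_isSquare hfsq (mul_ne_zero (mul_ne_zero (hf0 0) (hf0 1)) (hf0 2))
      have h5 : Sq ((pv 2 prime_two).valuation K) (f k * f l) :=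
        Sq.mul h4 (by rw [hf]; exact hij k hk) (by rw [hf]; exact hij l hl')
      have h6 := Sq.cancel h4 h3 h5
      rw [hf] at h6
      exact h6
    · exact hij i hi

end

end Pool.Agent.Lib.MP_1a91b9_ntE.C
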