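import Pool.Agent.Lib.MP_1a91b9_ntE.D.Mat
import Pool.Agent.Lib.MP_1a91b9_ntE.C.VE2
import Pool.Agent.Lib.MP_1a91b9_ntE.C.SelE0

/-!
# MP_1a91b9_nt (TwistDensity), even classes, part C: the Selmer group of `y² = x³ + (2 dlc c S)³`
-/

set_option autoImplicit false

namespace Pool.Agent.Lib.MP_1a91b9_ntE.C

open NumberField Finset WithZero IsDedekindDomain Pool.Agent.Lib.MP_1a91b9_ntT
open Pool.Agent.Lib.MP_1a91b9_ntH (F4 Pq qd)
open Pool.Agent.Lib.MP_1a91b9_ntH.C (GLoc ee)
open Pool.Agent.Lib.MP_1a91b9_ntH.C.Sel (of_sum)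

noncomputable section

theorem NE_ll (c : F4) (S : Finset Pq) (i j : S) : qE.NE c S (Sum.inl i) (Sum.inl j) =
    if i = j then F4.cj (qd.a i) + F4.of (F4.tr (c * qd.a i)) + F4.of (qE.g i) +
      ∑ k ∈ S.erase (i : Pq), F4.of (qd.s i k) else F4.of (qd.s i j) := rfl

theorem NE_lr (c : F4) (S : Finset Pq) (i : S) (u : Unit) :
    qE.NE c S (Sum.inl i) (Sum.inr u) = qd.a i := rfl

theorem NE_rl (c : F4) (S : Finset Pq) (j : S) (u : Unit) :
    qE.NE c S (Sum.inr u) (Sum.inl j) = F4.of (fq j) := rfl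

theorem NE_rr (c : F4) (S : Finset Pq) (u u' : Unit) :
    qE.NE c S (Sum.inr u) (Sum.inr u') = c := rfl

/-- A solution of the homogeneous system is a vector of the kernel of the matrix. -/
theorem mulVec_row {c : F4} {S : Finset Pq} {v : Pq → F4} {z : F4} (h : RowE c S v z) :
    (qE.NE c S).mulVec (Sum.elim (fun i : S => v i) (fun _ => z)) = 0 := by
  funext i
  have hu : ∀ f : Unit → F4, ∑ u, f u = f () := fun f => Fintype.sum_unique f
  rw [Matrix.mulVec, dotProduct, Fintype.sum_sum_type, hu]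
  rcases i with i | i
  · have h1 := h.row i i.2
    simp only [NE_ll, NE_lr, Sum.elim_inl, Sum.elim_inr]
    rw [← Finset.sum_erase_add _ _ (mem_univ i), if_pos rfl]
    have e2 : ∑ j ∈ (univ : Finset S).erase i, (if i = j then F4.cj (qd.a i) +
        F4.of (F4.tr (c * qd.a i)) + F4.of (qE.g i) +
        ∑ k ∈ S.erase (i : Pq), F4.of (qd.s i k) else F4.of (qd.s i j)) * v j =
          ∑ p ∈ S.erase (i : Pq), F4.of (qd.s i p) * v p := by
      refine Finset.sum_bij (fun (j : S) _ => (j : Pq)) ?_ ?_ ?_ ?_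
      · intro j hj
        exact mem_erase.2 ⟨fun h => ne_of_mem_erase hj (Subtype.ext h), j.2⟩
      · intro j _ k _ hjk
        exact Subtype.ext hjk
      · intro p hp
        exact ⟨⟨p, mem_of_mem_erase hp⟩, mem_erase.2
          ⟨fun h => ne_of_mem_erase hp (congrArg Subtype.val h), mem_univ _⟩, rfl⟩
      · intro j hj
        rw [if_neg (ne_of_mem_erase hj).symm]
    rw [e2]
    rw [of_sum] at h1
    show _ = (0 : F4)
    linear_combination h1
  · have h1 := h.last
    simp only [NE_rl, NE_rr, Sum.elim_inl, Sum.elim_inr]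
    have e1 : ∑ j : S, F4.of (fq j) * v j = ∑ q ∈ S, F4.of (fq q) * v q :=
      Finset.sum_coe_sort S (fun q => F4.of (fq q) * v q)
    rw [e1]
    exact h1

/-- **The Selmer group** for `2 dlc c S`: if the matrix of `c` and `S` is invertible, a triple whose
product is a square and which satisfies the local conditions of the curve `y² = x³ + (2 dlc c S)³` is
the class of a point of order two. -/
theorem sel_class_E (c : F4) (S : Finset Pq) (hM : (qE.NE c S).det ≠ 0)
    (a : Fin 3 → K) (ha : ∀ i, a i ≠ 0) (hp : IsSquare (a 0 * a 1 * a 2))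
    (hloc : ∀ v : HeightOneSpectrum (𝓞 K), GLoc (v.valuation K) om ((dle c S : 𝓞 K) : K) a) :
    (∀ i, IsSquare (a i)) ∨
      ∃ j, ∀ i, i ≠ j →
        IsSquare (a i * (ee om ((dle c S : 𝓞 K) : K) j - ee om ((dle c S : 𝓞 K) : K) i)) := by
  refine sel_class_E0 loc_e2 c S (fun v z h => ?_) a ha hp hloc
  have h1 := Matrix.eq_zero_of_mulVec_eq_zero hM (mulVec_row h)
  exact ⟨fun q hq => congrFun h1 (Sum.inl ⟨q, hq⟩), congrFun h1 (Sum.inr ())⟩

end

end Pool.Agent.Lib.MP_1a91b9_ntE.C
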