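import Pool.Agent.Lib.MP_1a91b9_ntE.C.MainG
import Pool.Agent.Lib.MP_1a91b9_ntE.C.SelE

/-!
# MP_1a91b9_nt (TwistDensity), even classes, part C: the points of `y² = x³ + (2 dlc c S)³`
-/

set_option autoImplicit false

namespace Pool.Agent.Lib.MP_1a91b9_ntE.C

open WeierstrassCurve NumberField Finset WithZero IsDedekindDomain Pool.Agent.Lib.MP_1a91b9_ntT
open Pool.Agent.Lib.MP_1a91b9_ntH (F4 Pq qd om_quad)
open Pool.Agent.Lib.MP_1a91b9_ntH.C
open Pool.Agent.Lib.MP_1a91b9_ntT3.S9 (ShaP)
open scoped Classical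

theorem selClE (c : F4) (S : Finset Pq) (hM : (qE.NE c S).det ≠ 0) :
    SelCl om ((dle c S : 𝓞 K) : K) :=
  fun a ha hp hloc => sel_class_E c S hM a ha hp hloc

/-- **The points** for the even class `c`: if the matrix of `c` and `S` is invertible, the group of
points of `y² = x³ + (2 dlc c S)³` over `K` is finite, with `4` times an odd number of elements, and
the 2-primary part of the Tate-Shafarevich group is trivial. -/
theorem pointsE (c : F4) (S : Finset Pq) (hM : (qE.NE c S).det ≠ 0) {W : WeierstrassCurve K}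
    (hW : W = cv ((dle c S : 𝓞 K) : K)) :
    Finite W.toAffine.Point ∧ (∃ m : ℕ, Odd m ∧ Nat.card W.toAffine.Point = 4 * m) ∧
      Nat.card (ShaP 2 W) = 1 :=
  of_selCl (coe_ne (dle_ne c S)) om_quad (selClE c S hM) hW

end Pool.Agent.Lib.MP_1a91b9_ntE.C
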