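import Pool.Agent.Lib.MP_1a91b9_ntH.C.Coc
import Pool.Agent.Lib.MP_1a91b9_ntH.C.Fin

/-!
# MP_1a91b9_nt (TwistDensity), part C: the points and the Tate-Shafarevich group of `y² = x³ + d³`
when all locally trivial triples are trivial (any `d ≠ 0`)
-/

set_option autoImplicit false

namespace Pool.Agent.Lib.MP_1a91b9_ntE.C

open WeierstrassCurve WithZero NumberField IsDedekindDomain Pool.Agent.Lib.MP_1a91b9_ntT
open Pool.Agent.Lib.MP_1a91b9_ntH.C
open Pool.Agent.Lib.MP_1a91b9_ntT3.S9 (ShaP)
open scoped Classical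

/-- The group of points is finite, with `4` times an odd number of elements, and the 2-primary part of
the Tate-Shafarevich group is trivial. -/
theorem of_selCl {N : Type*} [Field N] [NumberField N] {z d : N} (hd : d ≠ 0)
    (hz : z ^ 2 + z + 1 = 0) (hS : SelCl z d) {W : WeierstrassCurve N} (hW : W = cv d) :
    Finite W.toAffine.Point ∧ (∃ m : ℕ, Odd m ∧ Nat.card W.toAffine.Point = 4 * m) ∧
      Nat.card (ShaP 2 W) = 1 := by
  subst hW
  exact ⟨fin_of_half hd rfl (desc_pts hd hz hS rfl), card_of_half hd rfl hz (desc_pts hd hz hS rfl),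
    card_shaP hd hz hS⟩

end Pool.Agent.Lib.MP_1a91b9_ntE.C
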