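import Pool.Agent.Lib.MP_1a91b9_ntH2.C.PerG

/-!
# MP_1a91b9_nt (TwistDensity), phase E, block Per: the 2-part from the value of the L-series,
`δ = 2 d`, `d` odd

`δ` squarefree, `ε³ = 1 / 2`, `‖κ‖² = 2 ρ ‖ε‖²` with a unit `ρ` above `2`, `ν = 6 L / (Om κ 2^r)`,
`g₁ = (3/4)^e |L|²`, `Ω = 3^e √3 |Om|² |ε|² / |δ|`: `g₁ √3 / Ω = 4^(r - e) ρ |ν|² |d| / 9`.
-/

set_option autoImplicit false

namespace Pool.Agent.Lib.MP_1a91b9_ntE

open NumberField IsDedekindDomain WeierstrassCurve WithZero Pool.Agent.Lib.MP_1a91b9_ntT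
open Pool.Agent.Lib.MP_1a91b9_ntH Pool.Agent.Lib.MP_1a91b9_ntH.C Pool.Agent.Lib.MP_1a91b9_ntH2
open Pool.Agent.Lib.MP_1a91b9_ntT.S9 (tam normFactor period)
open Pool.Agent.Lib.MP_1a91b9_ntT3.S9 (UnitAt ShaP PPart PPartQ unitAt_of_val ppartQ_of)
open scoped Classical

section min
variable {v : HeightOneSpectrum (𝓞 K)}

theorem pere_min {δ : 𝓞 K} (hs : Squarefree δ)
    (h : s3 ∉ v.asIdeal ∨ ¬ s3 ∣ δ) : exp (-12 : ℤ) < v.valuation K ((cv (δ : K)).Δ) := by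
  have hpow : ∀ x : ℤᵐ⁰, exp (-1 : ℤ) ≤ x → ∀ n : ℕ, exp (-(n : ℤ)) ≤ x ^ n := by
    intro x hx n
    have h1 := pow_le_pow_left₀ zero_le hx n
    rw [← exp_nsmul] at h1
    simpa using h1
  rw [perb_disc]
  by_cases hv2 : (2 : 𝓞 K) ∈ v.asIdeal
  · rw [perb_one (perb_cop hv2), one_pow, mul_one]
    have h4 := hpow _ (perb_sqf two_prime.squarefree v) 4
    have h6 := hpow _ (perb_sqf hs v) 6
    refine lt_of_lt_of_le ?_ (mul_le_mul' h4 h6)
    rw [← exp_add]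
    exact exp_lt_exp.2 (by norm_num)
  · rw [perb_one hv2, one_pow, one_mul]
    by_cases hv3 : s3 ∈ v.asIdeal
    · have hd : δ ∉ v.asIdeal := by
        rw [perb_eq s3_prime hv3, Ideal.mem_span_singleton]
        exact h.resolve_left (fun h' => h' hv3)
      rw [perb_one hd, one_pow, mul_one]
      exact lt_of_lt_of_le (exp_lt_exp.2 (by norm_num))
        (hpow _ (perb_sqf s3_prime.squarefree v) 6)
    · rw [perb_one hv3, one_pow, one_mul]
      exact lt_of_lt_of_le (exp_lt_exp.2 (by norm_num)) (hpow _ (perb_sqf hs v) 6)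

/-- the places where the equation is minimal -/
theorem pere_nf_one {δ : 𝓞 K} (hs : Squarefree δ)
    (h : s3 ∉ v.asIdeal ∨ ¬ s3 ∣ δ) : normFactor (cv (δ : K)) v = 1 := by
  have hu := perb_unique (cv (δ : K)) v 1
  obtain ⟨r, hr⟩ := perb_int v δ
  have h1 := hu ⟨0, 0, 0, 0, r ^ 3⟩ (by
    rw [one_smul, perb_cvbc, perb_bc, map_zero, map_pow, hr]
    rfl) (by
    rw [one_smul, WeierstrassCurve.baseChange, WeierstrassCurve.map_Δ,
      MP_1a91b9_nt.valued_algebraMap]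
    exact pere_min hs h)
  have h3 : Valued.v (((1 : VariableChange (v.adicCompletion K)).u : (v.adicCompletion K)ˣ) :
      v.adicCompletion K) = 1 := by
    show Valued.v (((1 : (v.adicCompletion K)ˣ)) : v.adicCompletion K) = 1
    rw [Units.val_one, map_one]
  rw [h3] at h1
  rw [normFactor, h1, log_one, neg_zero, zpow_zero]

end min

/-- The finite part of the period, for every squarefree `δ`. -/
theorem prod_normFactorE {δ : 𝓞 K} (hs : Squarefree δ) :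
    ∏ᶠ v : HeightOneSpectrum (𝓞 K), normFactor (cv (δ : K)) v = if s3 ∣ δ then 3 else 1 := by
  split_ifs with h
  · have hp : (Ideal.span {s3}).IsPrime := (Ideal.span_singleton_prime s3_ne).2 s3_prime
    have hb : Ideal.span {s3} ≠ ⊥ := by
      rw [Ne, Ideal.span_singleton_eq_bot]
      exact s3_ne
    rw [finprod_eq_single _ (⟨Ideal.span {s3}, hp, hb⟩ : HeightOneSpectrum (𝓞 K))]
    · exact perb_nf_three hs (Ideal.mem_span_singleton_self _) h
    · intro v hv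
      refine pere_nf_one hs (Or.inl fun h3 => hv ?_)
      exact HeightOneSpectrum.ext (perb_eq s3_prime h3)
  · rw [finprod_congr fun v => pere_nf_one hs (Or.inr h), finprod_one]

/-- The period, for every squarefree `δ`. -/
theorem period_cvE {δ : 𝓞 K} (hs : Squarefree δ) {ε : ℂ}
    (hε : ε ^ 3 = 1 / 2) : period (cv (δ : K)) =
      (if s3 ∣ δ then 3 else 1) * (√3 * (‖Om‖ ^ 2 * ‖ε‖ ^ 2 / ‖em δ‖)) := by
  have hδ : (δ : K) ≠ 0 := fun h => hs.ne_zero (RingOfIntegers.ext h)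
  rw [period, prod_normFactorE hs, prod_perAt_cv hδ hε]
  rfl

section val
variable {A : ValuationSubring ℂ}

private theorem pere_conj {x : ℂ} (h : (A.comap (starRingEnd ℂ)).valuation x = 1) :
    A.valuation ((starRingEnd ℂ) x) = 1 := by
  have h0 : x ≠ 0 := by
    rintro rfl
    rw [map_zero] at h
    exact zero_ne_one h
  have h1 : x ∈ A.comap (starRingEnd ℂ) := by
    rw [← ValuationSubring.valuation_le_one_iff, h]
  have h2 : x⁻¹ ∈ A.comap (starRingEnd ℂ) := by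
    rw [← ValuationSubring.valuation_le_one_iff, map_inv₀, h, inv_one]
  rw [ValuationSubring.mem_comap] at h1 h2
  rw [map_inv₀] at h2
  have h3 := (A.valuation_le_one_iff _).2 h1
  have h4 := (A.valuation_le_one_iff _).2 h2
  rw [map_inv₀] at h4
  refine le_antisymm h3 ?_
  have h5 : A.valuation ((starRingEnd ℂ) x) ≠ 0 := by
    rw [Valuation.ne_zero_iff]
    exact (map_ne_zero _).2 h0
  exact (inv_le_one₀ (zero_lt_iff.2 h5)).1 h4

private theorem pere_normsq {y : ℂ} (h : A.valuation y = 1)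
    (h' : (A.comap (starRingEnd ℂ)).valuation y = 1) :
    A.valuation ((‖y‖ ^ 2 : ℝ) : ℂ) = 1 := by
  rw [Complex.ofReal_pow, ← Complex.conj_mul', map_mul, pere_conj h', h, one_mul]

private theorem pere_comap (hA : Two A) : Two (A.comap (starRingEnd ℂ)) := by
  intro h
  apply hA
  rw [ValuationSubring.mem_comap, map_inv₀, map_ofNat] at h
  exact h

private theorem pere_pow {y : ℂ} {n : ℕ} (hn : n ≠ 0) (h : A.valuation (y ^ n) = 1) :
    A.valuation y = 1 := by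
  rw [map_pow] at h
  exact (pow_eq_one_iff_of_nonneg zero_le hn).1 h

private theorem pere_odd (hA : Two A) {n : ℕ} (hn : Odd n) : A.valuation (n : ℂ) = 1 := by
  have h := S3.v_odd hA (n := (n : ℤ)) (by exact_mod_cast hn)
  simpa using h

end val

private theorem pere_two {A : ValuationSubring ℂ} (hA : ((2 : ℕ) : ℂ)⁻¹ ∉ A) : Two A := by
  intro h
  exact hA (by simpa using h)

private theorem pere_Lsq {L κ : ℂ} (n : ℕ) (hκ0 : κ ≠ 0) :
    ‖L‖ ^ 2 = ‖L * 6 / (Om * κ * 2 ^ n)‖ ^ 2 * (‖Om‖ ^ 2 * ‖κ‖ ^ 2) * 4 ^ n / 36 := by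
  have h1 : ‖Om‖ ≠ 0 := norm_ne_zero_iff.2 Om_ne_zero
  have h2 : ‖κ‖ ≠ 0 := norm_ne_zero_iff.2 hκ0
  have h4 : (4 : ℝ) ^ n = 2 ^ n * 2 ^ n := by
    rw [← mul_pow]
    norm_num
  rw [norm_div, norm_mul, norm_mul, norm_mul, norm_pow, h4]
  have h6 : ‖(6 : ℂ)‖ = 6 := by norm_num
  have h7 : ‖(2 : ℂ)‖ = 2 := by norm_num
  rw [h6, h7]
  have h8 : (2 : ℝ) ^ n ≠ 0 := by positivity
  field_simp
  norm_num

private theorem pere_g {g1 L : ℂ} {δ : 𝓞 K}
    (hg : g1 * (if s3 ∣ δ then 4 / 3 else 1) = L * (starRingEnd ℂ) L) :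
    g1 = ((‖L‖ ^ 2 * (if s3 ∣ δ then 3 / 4 else 1) : ℝ) : ℂ) := by
  have h1 : L * (starRingEnd ℂ) L = ((‖L‖ ^ 2 : ℝ) : ℂ) := by
    rw [Complex.mul_conj, Complex.normSq_eq_norm_sq]
  rw [h1] at hg
  split_ifs at hg ⊢
  · rw [Complex.ofReal_mul, ← hg]
    push_cast
    ring
  · rw [mul_one] at hg
    rw [hg, mul_one]

private theorem pere_em_mul (x y : 𝓞 K) : em (x * y) = em x * em y := by
  rw [MP_1a91b9_ntH.em, MP_1a91b9_ntH.em, MP_1a91b9_ntH.em, ← map_mul]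
  rfl

private theorem pere_em_two : em 2 = 2 := by
  have h : (((2 : ℤ) : 𝓞 K) : K) = ((2 : ℤ) : K) := map_intCast (algebraMap (𝓞 K) K) 2
  have h1 : em ((2 : ℤ) : 𝓞 K) = ((2 : ℤ) : ℂ) := by
    rw [MP_1a91b9_ntH.em, h, map_intCast]
  simpa using h1

/-- The 2-part of the formula from the 2-adic value of `L`, `δ = 2 d`. -/
theorem formula_genE {δ d : 𝓞 K} (hsq : Squarefree δ) (hδd : δ = 2 * d) (h2 : (2 : 𝓞 K) ∣ d - 1)
    {r : ℕ} {ε κ L g1 : ℂ} (hε : ε ^ 3 = 1 / 2) {ρ : ℝ} (hρ : 0 < ρ)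
    (hρA : ∀ A : ValuationSubring ℂ, Two A → A.valuation (ρ : ℂ) = 1)
    (hκ : ‖κ‖ ^ 2 = 2 * ρ * ‖ε‖ ^ 2)
    (hg : g1 * (if s3 ∣ δ then 4 / 3 else 1) = L * (starRingEnd ℂ) L)
    (hν : ∀ A : ValuationSubring ℂ, Two A → A.valuation (L * 6 / (Om * κ * 2 ^ r)) = 1)
    (hL : L ≠ 0) {c t C T : ℕ} (hc : Odd c) (hC : C = 4 * c) (ht : Odd t)
    (hT : T * (if s3 ∣ δ then 4 else 1) = 4 ^ (r + 2) * t) :
    ∃ x : ℝ, UnitAt 2 x ∧ g1 * (√|(discr K : ℝ)| : ℝ) / (period (cv (δ : K)) : ℝ) =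
      (x * ((1 : ℝ) * (T : ℝ) / (C : ℝ) ^ 2) : ℝ) := by
  have hε0 : ε ≠ 0 := by
    rintro rfl
    norm_num at hε
  have he : 0 < ‖ε‖ := norm_pos_iff.2 hε0
  have hκ0 : κ ≠ 0 := by
    rintro rfl
    rw [norm_zero] at hκ
    have h3 : 0 < 2 * ρ * ‖ε‖ ^ 2 := by positivity
    rw [← hκ] at h3
    norm_num at h3
  have hd0 : em d ≠ 0 := by
    rw [MP_1a91b9_ntH.em, Ne, map_eq_zero]
    intro h
    have h1 : d = 0 := RingOfIntegers.ext h
    exact hsq.ne_zero (by rw [hδd, h1, mul_zero])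
  have hn0 : 0 < ‖em d‖ := norm_pos_iff.2 hd0
  have hnδ : ‖em δ‖ = 2 * ‖em d‖ := by
    rw [hδd, pere_em_mul, norm_mul, pere_em_two]
    norm_num
  have hOm : 0 < ‖Om‖ := norm_pos_iff.2 Om_ne_zero
  obtain ⟨ν, hνd⟩ : ∃ ν, ν = L * 6 / (Om * κ * 2 ^ r) := ⟨_, rfl⟩
  have hν0 : ν ≠ 0 := by
    rw [hνd]
    have h3 : (2 : ℂ) ^ r ≠ 0 := pow_ne_zero _ two_ne_zero
    exact div_ne_zero (mul_ne_zero hL (by norm_num)) (mul_ne_zero (mul_ne_zero Om_ne_zero hκ0) h3)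
  have hνn : 0 < ‖ν‖ := norm_pos_iff.2 hν0
  rw [← hνd] at hν
  have hc0 : (c : ℝ) ≠ 0 := by
    rintro h
    have : c = 0 := by exact_mod_cast h
    rw [this] at hc
    exact absurd hc (by decide)
  have ht0 : (t : ℝ) ≠ 0 := by
    rintro h
    have : t = 0 := by exact_mod_cast h
    rw [this] at ht
    exact absurd ht (by decide)
  refine ⟨ρ * ‖ν‖ ^ 2 * ‖em d‖ * (c : ℝ) ^ 2 / (9 * t), ?_, ?_⟩
  · refine unitAt_of_val Nat.prime_two ?_ fun A hA => ?_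
    · positivity
    · have hA2 := pere_two hA
      have e1 : A.valuation ((‖ν‖ ^ 2 : ℝ) : ℂ) = 1 :=
        pere_normsq (hν A hA2) (hν _ (pere_comap hA2))
      have e2 : A.valuation ((‖em d‖ : ℝ) : ℂ) = 1 := by
        refine pere_pow (n := 2) two_ne_zero ?_
        have h3 := Nz_eq d
        have h4 : ((‖em d‖ : ℝ) : ℂ) ^ 2 = ((Nz d : ℕ) : ℂ) := by
          rw [← Complex.ofReal_pow]
          have h5 : ‖em d‖ ^ 2 = ((Nz d : ℕ) : ℝ) := h3.symm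
          rw [h5]
          push_cast
          rfl
        rw [h4]
        exact pere_odd hA2 (Nz_odd h2)
      have e3 : A.valuation (9 : ℂ) = 1 := by
        have := pere_odd hA2 (n := 9) (by decide)
        simpa using this
      have e4 : (((ρ * ‖ν‖ ^ 2 * ‖em d‖ * (c : ℝ) ^ 2 / (9 * t) : ℝ)) : ℂ) =
          (ρ : ℂ) * ((‖ν‖ ^ 2 : ℝ) : ℂ) * ((‖em d‖ : ℝ) : ℂ) * (c : ℂ) ^ 2 / (9 * (t : ℂ)) := by
        push_cast
        ring
      rw [e4, map_div₀, map_mul, map_mul, map_mul, map_mul, map_pow, e1, e2, pere_odd hA2 hc,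
        pere_odd hA2 ht, e3, hρA A hA2]
      simp
  · have hper := period_cvE hsq hε
    rw [pere_g hg, sqrt_discr_K, hper, ← Complex.ofReal_mul, ← Complex.ofReal_div,
      pere_Lsq r hκ0, ← hνd, hC, hκ, hnδ]
    congr 1
    have h3 : (√3 : ℝ) ≠ 0 := by positivity
    by_cases hd : s3 ∣ δ
    · rw [if_pos hd] at hT
      have hT' : (T : ℝ) = 4 * 4 ^ r * t := by
        have h5 : T = 4 * 4 ^ r * t := by
          have h6 : 4 ^ (r + 2) * t = (4 * 4 ^ r * t) * 4 := by ring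
          rw [h6] at hT
          omega
        rw [h5]
        push_cast
        rfl
      rw [if_pos hd, if_pos hd, hT']
      push_cast
      field_simp
      norm_num
    · rw [if_neg hd, mul_one] at hT
      have hT' : (T : ℝ) = 16 * 4 ^ r * t := by
        rw [hT]
        push_cast
        ring
      rw [if_neg hd, if_neg hd, hT']
      push_cast
      field_simp
      norm_num

/-- **The 2-part, strong form**, for `y² = x³ + δ³`, `δ = 2 d`. -/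
theorem ppartQ_genE {δ d : 𝓞 K} (hsq : Squarefree δ) (hδd : δ = 2 * d) (h2 : (2 : 𝓞 K) ∣ d - 1)
    {r : ℕ} {ε κ L : ℂ} (hε : ε ^ 3 = 1 / 2) {ρ : ℝ} (hρ : 0 < ρ)
    (hρA : ∀ A : ValuationSubring ℂ, Two A → A.valuation (ρ : ℂ) = 1)
    (hκ : ‖κ‖ ^ 2 = 2 * ρ * ‖ε‖ ^ 2) {g : ℂ → ℂ} (hgd : Differentiable ℂ g)
    (hgs : ∀ s : ℂ, 3 / 2 < s.re → g s = (cv (δ : K)).LSeries s)
    (hg : g 1 * (if s3 ∣ δ then 4 / 3 else 1) = L * (starRingEnd ℂ) L)
    (hν : ∀ A : ValuationSubring ℂ, Two A → A.valuation (L * 6 / (Om * κ * 2 ^ r)) = 1)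
    (hL : L ≠ 0) (hfin : Finite (cv (δ : K)).toAffine.Point) {c t : ℕ} (hc : Odd c)
    (hC : Nat.card (cv (δ : K)).toAffine.Point = 4 * c) (ht : Odd t)
    (hT : (∏ᶠ v : HeightOneSpectrum (𝓞 K), tam (cv (δ : K)) v) *
      (if s3 ∣ δ then 4 else 1) = 4 ^ (r + 2) * t)
    (hsha : Nat.card (ShaP 2 (cv (δ : K))) = 1)
    (hrat : ∃ q : ℚ, ‖L‖ ^ 2 * ‖em δ‖ = (q : ℝ) * (‖Om‖ * ‖ε‖) ^ 2) :
    PPartQ 2 (cv (δ : K)) := by
  obtain ⟨x, hx, he⟩ := formula_genE hsq hδd h2 hε hρ hρA hκ hg hν hL hc hC ht hT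
  have hg0 : g 1 ≠ 0 := by
    intro h0
    rw [h0, zero_mul] at hg
    exact mul_ne_zero hL ((map_ne_zero _).2 hL) hg.symm
  have hf : Finite (ShaP 2 (cv (δ : K))) :=
    Nat.finite_of_card_ne_zero (by rw [hsha]; exact one_ne_zero)
  obtain ⟨q, hq⟩ := rat_gen hsq hε hg hrat
  refine ppartQ_of ⟨g, x, hgd, hgs, hg0, hfin, hf, hx, ?_⟩
    ⟨g, q, hgd, fun s hs => hgs s (by linarith), hq⟩
  rw [hsha, Nat.cast_one]
  exact he

end Pool.Agent.Lib.MP_1a91b9_ntE
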