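import Pool.Agent.Lib.MP_1a91b9_ntE.C.TamE
import Pool.Agent.Lib.MP_1a91b9_ntH2.C.HypC

/-!
# MP_1a91b9_nt (TwistDensity), even classes, block C-tam: the Tamagawa numbers for
`2 * dlc c S` (which is `dle c S` by definition)
-/

set_option autoImplicit false

namespace Pool.Agent.Lib.MP_1a91b9_ntE.C

open NumberField IsDedekindDomain WithZero Finset Pool.Agent.Lib.MP_1a91b9_ntT
open Pool.Agent.Lib.MP_1a91b9_ntH (F4 Pq s3 qd)
open Pool.Agent.Lib.MP_1a91b9_ntH.C
open Pool.Agent.Lib.MP_1a91b9_ntH2 (dlc)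
open Pool.Agent.Lib.MP_1a91b9_ntH2.C (val_dlc)
open Pool.Agent.Lib.MP_1a91b9_ntT.S9 (tam)

private theorem hv_dlc (c : F4) (S : Finset Pq) : HV (dlc c S) S ((qd.A S + c).b = 0) := by
  intro v
  rw [val_dlc c v S]
  congr 1
  split_ifs <;> rfl

/-- Even classes: the product of the Tamagawa numbers. -/
theorem finprod_tam_e (c : F4) (S : Finset Pq) : ∃ t : ℕ, Odd t ∧
    (∏ᶠ v : HeightOneSpectrum (𝓞 K), tam (cv ((2 * dlc c S : 𝓞 K) : K)) v) *
      (if (qd.A S + c).b = 0 then 1 else 4) = 4 ^ (S.card + 2) * t := by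
  refine ⟨1, odd_one, ?_⟩
  rw [mul_one, ← finprod_tame (hv_dlc c S)]
  congr 1
  split_ifs <;> rfl

/-- Even classes: the Tamagawa number at the places of `2 * dlc c S` above no `s3`. -/
theorem tam_e (c : F4) (S : Finset Pq) {v : HeightOneSpectrum (𝓞 K)}
    (h3 : s3 ∉ v.asIdeal) (hv : v.valuation K ((2 * dlc c S : 𝓞 K) : K) < 1) :
    tam (cv ((2 * dlc c S : 𝓞 K) : K)) v = 4 := by
  have h := hv_dlc c S
  by_cases h2 : (2 : 𝓞 K) ∈ v.asIdeal
  · exact tame_two h h2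
  · by_cases hq : ∃ q ∈ S, q.1 ∈ v.asIdeal
    · obtain ⟨q, hq, hqv⟩ := hq
      exact tame_q h hq hqv
    · exfalso
      push Not at hq
      have hs3 : v.valuation K (s3 : K) = 1 := val_one h3
      have h2v : v.valuation K (2 : K) = 1 := by
        rw [← coe_two]
        exact val_one h2
      have h4 : ((2 * dlc c S : 𝓞 K) : K) = 2 * ((dlc c S : 𝓞 K) : K) := by
        have e1 : ((2 * dlc c S : 𝓞 K) : K) = algebraMap (𝓞 K) K (2 * dlc c S) := rfl
        rw [e1, map_mul, map_ofNat]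
      rw [h4, map_mul, h2v, one_mul, h v, hs3, ite_self, one_mul,
        Finset.prod_eq_one fun q hqS => val_one (hq q hqS)] at hv
      exact lt_irrefl _ hv

/-- The case `c = 0`, `e = 0` at `√-3`: the Tamagawa number is `4` if `2 * dlc c S` is a unit
there. -/
theorem tam_e_s3 (c : F4) (S : Finset Pq) {v : HeightOneSpectrum (𝓞 K)} (hv : s3 ∈ v.asIdeal) :
    tam (cv ((2 * dlc c S : 𝓞 K) : K)) v = if (qd.A S + c).b = 0 then 4 else 1 := by
  rw [tame_s3 (hv_dlc c S) hv]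
  split_ifs <;> rfl

end Pool.Agent.Lib.MP_1a91b9_ntE.C
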