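import Pool.Agent.Lib.MP_1a91b9_ntH.C.TamFour

/-!
# MP_1a91b9_nt (TwistDensity), even classes, block C-tam: index four at `2`

`3` is a unit, `d` is not, `(1 + 2 z) d` has value `exp (-1)`: the same proof as for `2` a unit, with
the generating set `{0} ∪ {1 ≤ V x}`.
-/

set_option autoImplicit false
set_option linter.unusedVariables false

namespace Pool.Agent.Lib.MP_1a91b9_ntH.C

open NumberField IsDedekindDomain WithZero WeierstrassCurve
open scoped Classical

open TamFour in
/-- The index is four, from the description of the generating set. -/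
theorem index_four_of {L : Type*} [Field L] [CharZero L] {z d : L} (V : Valuation L ℤᵐ⁰)
    (hz : z ^ 2 + z + 1 = 0) (hs : V ((1 + 2 * z) * d) = exp (-1 : ℤ))
    (hset : ∀ (x y : L) (h : (cv d).toAffine.Nonsingular x y), 1 ≤ V (x - -d) →
      Affine.Point.some x y h ∈ nsSet V (cv d))
    (hset' : ∀ (x y : L) (h : (cv d).toAffine.Nonsingular x y),
      Affine.Point.some x y h ∈ nsSet V (cv d) → 1 ≤ V (x - -d)) :
    (nsG V (cv d)).index = 4 := by
  have h3 : V 3 * V d ^ 2 = exp (-2 : ℤ) := by
    have e1 : ((1 + 2 * z) * d) ^ 2 = -(3 * d ^ 2) := by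
      linear_combination 4 * d ^ 2 * hz
    have e2 := congrArg V e1
    rw [map_pow, hs, Valuation.map_neg, map_mul, map_pow] at e2
    rw [← e2, ← WithZero.exp_nsmul]
    norm_num
  have hd : d ≠ 0 := by
    rintro rfl
    rw [mul_zero, map_zero] at hs
    exact WithZero.exp_ne_zero hs.symm
  have hvz := val_z V hz
  have hz0 : z ≠ 0 := by
    rintro rfl
    rw [map_zero] at hvz
    exact zero_ne_one hvz
  have c0 : (-d) ^ 3 = -d ^ 3 := by ring
  have c1 := root_cube hz c0
  have c2 := root_cube2 hz c0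
  have hroot1 : ∀ e : L, e ^ 3 = -d ^ 3 → V e = V d := by
    intro e he
    rcases roots hz he with rfl | rfl | rfl
    · rw [Valuation.map_neg]
    · rw [map_mul, Valuation.map_neg, hvz, one_mul]
    · rw [map_mul, Valuation.map_neg, map_pow, hvz, one_pow, one_mul]
  have hne : ∀ e : L, e ^ 3 = -d ^ 3 → ∃ e' : L, e' ^ 3 = -d ^ 3 ∧ e' ≠ e := by
    intro e he
    refine ⟨z * e, root_cube hz he, fun h => ?_⟩
    have he0 : e ≠ 0 := by
      rintro rfl
      apply hd
      have h3 : d ^ 3 = 0 := by linear_combination he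
      exact pow_eq_zero_iff (three_ne_zero) |>.1 h3
    have h1 : (z - 1) * e = 0 := by linear_combination h
    have hz1 : z = 1 := sub_eq_zero.1 ((mul_eq_zero.1 h1).resolve_right he0)
    rw [hz1] at hz
    norm_num at hz
  have hsep : ∀ e e' : L, e ^ 3 = -d ^ 3 → e' ^ 3 = -d ^ 3 → e ≠ e' → ¬ SqV (V (e - e')) := by
    intro e e' he he' hee
    rw [val_sep V hz hs he he' hee]
    exact not_sqV
  -- contained in the group G4
  have hG : nsG V (cv d) ≤ G4 V (cv d).toAffine rfl hsep hne := by
    rw [nsG, AddSubgroup.closure_le]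
    intro P hP
    rcases P with _ | ⟨x, y, h⟩
    · exact Or.inl rfl
    right
    refine ⟨x, y, h, rfl, ?_⟩
    have h1 := hset' x y h hP
    intro e he
    have h4 := val_root V hz hs c0 he h1
    refine ⟨?_, ?_⟩
    · rintro rfl
      rw [sub_self, map_zero] at h4
      rw [← h4] at h1
      exact absurd h1 (not_le.2 zero_lt_one)
    · rw [h4]
      have hy := (eqn_iff rfl x y).1 h.1
      rw [cubic_prod hz] at hy
      have hy2 := congrArg V hy
      rw [map_pow, map_mul, map_mul, val_root V hz hs c0 c1 h1, val_root V hz hs c0 c2 h1] at hy2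
      have h0 : V (x - -d) ≠ 0 := (zero_lt_one.trans_le h1).ne'
      refine sqV_of_mul (a := V (x - -d) ^ 2) (pow_ne_zero 2 h0) ⟨_, rfl⟩ ⟨V y, ?_⟩
      rw [hy2, pow_two, mul_assoc]
  have hT : ∀ (e : L) (he : e ^ 3 = -d ^ 3), tp hd rfl e he ∉ nsG V (cv d) := by
    intro e he hm
    rcases hG hm with h0 | ⟨x, y, h, hxy, hall⟩
    · exact tp_ne hd rfl e he h0
    · obtain ⟨hx, -⟩ := (Affine.Point.some.injEq ..).mp hxy
      exact (hall e he).1 hx.symm
  -- the four points
  obtain ⟨A, hA⟩ : ∃ A : (cv d).toAffine.Point, A = tp hd rfl (-d) c0 := ⟨_, rfl⟩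
  obtain ⟨B, hB⟩ : ∃ B : (cv d).toAffine.Point, B = tp hd rfl (z * -d) c1 := ⟨_, rfl⟩
  obtain ⟨C, hC⟩ : ∃ C : (cv d).toAffine.Point, C = tp hd rfl (z ^ 2 * -d) c2 := ⟨_, rfl⟩
  have hAA : A + A = 0 := by rw [hA]; exact tp_two hd rfl _ _
  have hBB : B + B = 0 := by rw [hB]; exact tp_two hd rfl _ _
  have hCC : C + C = 0 := by rw [hC]; exact tp_two hd rfl _ _
  have hAB : A + B = C := by rw [hA, hB, hC]; exact tp_add hd rfl z hz _ _ _ _
  have hAn : A ∉ nsG V (cv d) := by rw [hA]; exact hT _ _
  have hBn : B ∉ nsG V (cv d) := by rw [hB]; exact hT _ _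
  have hCn : C ∉ nsG V (cv d) := by rw [hC]; exact hT _ _
  have nA : -A = A := neg_eq_of_add_eq_zero_left hAA
  have nB : -B = B := neg_eq_of_add_eq_zero_left hBB
  have nC : -C = C := neg_eq_of_add_eq_zero_left hCC
  have hAC : A + C = B := by rw [← hAB, ← add_assoc, hAA, zero_add]
  have hBC : B + C = A := by rw [← hAB, add_comm A B, ← add_assoc, hBB, zero_add]
  have hinj : Function.Injective (fun i : Fin 4 =>
      (QuotientAddGroup.mk (![0, A, B, C] i) : (cv d).toAffine.Point ⧸ nsG V (cv d))) := by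
    intro i j hij
    have hij' : -(![0, A, B, C] i) + ![0, A, B, C] j ∈ nsG V (cv d) := QuotientAddGroup.eq.1 hij
    fin_cases i <;> fin_cases j <;>
      simp [nA, nB, nC, hAB, hAC, hBC, add_comm B A, add_comm C A, add_comm C B, hAn, hBn, hCn]
        at hij' ⊢
  have hsurj : Function.Surjective (fun i : Fin 4 =>
      (QuotientAddGroup.mk (![0, A, B, C] i) : (cv d).toAffine.Point ⧸ nsG V (cv d))) := by
    intro q
    obtain ⟨P, rfl⟩ := QuotientAddGroup.mk_surjective q
    have hred : ∀ i : Fin 4, -(![0, A, B, C] i) + P ∈ nsSet V (cv d) → ∃ i : Fin 4,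
        (QuotientAddGroup.mk (![0, A, B, C] i) : (cv d).toAffine.Point ⧸ nsG V (cv d)) =
          QuotientAddGroup.mk P := fun i hi =>
      ⟨i, QuotientAddGroup.eq.2 (AddSubgroup.subset_closure hi)⟩
    have hred2 : ∀ (e : L) (he : e ^ 3 = -d ^ 3), P + tp hd rfl e he ∈ nsSet V (cv d) →
        ∃ i : Fin 4,
        (QuotientAddGroup.mk (![0, A, B, C] i) : (cv d).toAffine.Point ⧸ nsG V (cv d)) =
          QuotientAddGroup.mk P := by
      intro e he h
      rw [add_comm] at h
      rcases roots hz he with rfl | rfl | rfl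
      · refine hred 1 ?_
        change -A + P ∈ _
        rw [nA, hA]; exact h
      · refine hred 2 ?_
        change -B + P ∈ _
        rw [nB, hB]; exact h
      · refine hred 3 ?_
        change -C + P ∈ _
        rw [nC, hC]; exact h
    rcases P with _ | ⟨x, y, h⟩
    · refine hred 0 ?_
      change -0 + 0 ∈ _
      rw [neg_zero, zero_add]
      exact Or.inl rfl
    by_cases hx : 1 ≤ V (x - -d)
    · refine hred 0 ?_
      change -0 + _ ∈ _
      rw [neg_zero, zero_add]
      exact hset x y h hx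
    push Not at hx
    have hy := (eqn_iff rfl x y).1 h.1
    -- a near root
    obtain ⟨e, he, hxe⟩ : ∃ e : L, e ^ 3 = -d ^ 3 ∧ V (x - e) ≤ exp (-2 : ℤ) := by
      by_contra hcon
      push Not at hcon
      have h0 : V (x - -d) ≤ exp (-1 : ℤ) := le_exp_of_lt_one hx
      have hl : ∀ e : L, e ^ 3 = -d ^ 3 → V (x - e) = exp (-1 : ℤ) := by
        intro e he
        refine le_antisymm ?_ ?_
        · have e2 : x - e = (x - -d) + (-d - e) := by ring
          rw [e2]
          exact (Valuation.map_add _ _ _).trans (max_le h0 (val_sep_le V hz hs c0 he))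
        · by_contra hc
          push Not at hc
          exact absurd (le_exp_two hc) (not_le.2 (hcon e he))
      have hy' := hy
      rw [cubic_prod hz] at hy'
      have hy2 := congrArg V hy'
      rw [map_pow, map_mul, map_mul, hl _ c0, hl _ c1, hl _ c2] at hy2
      have h5 : SqV (exp (-1 : ℤ)) :=
        sqV_of_mul (a := exp (-1 : ℤ) ^ 2) (pow_ne_zero 2 WithZero.exp_ne_zero) ⟨_, rfl⟩
          ⟨V y, by rw [hy2, pow_two, mul_assoc]⟩
      exact not_sqV h5
    refine hred2 e he ?_
    by_cases hxe0 : x = e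
    · subst hxe0
      have hy0 : y = 0 := by
        have : y ^ 2 = 0 := by rw [hy]; linear_combination he
        exact pow_eq_zero_iff (two_ne_zero) |>.1 this
      subst hy0
      left
      exact tp_two hd rfl x he
    · rw [tp, Affine.Point.add_of_X_ne hxe0]
      refine hset _ _ _ ?_
      have hsl : (cv d).toAffine.slope x e y 0 = y / (x - e) := by
        rw [Affine.slope_of_X_ne hxe0, sub_zero]
      have hxe1 : x - e ≠ 0 := sub_ne_zero.2 hxe0
      have hX : ((cv d).toAffine.addX x e ((cv d).toAffine.slope x e y 0) - e) * (x - e) =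
          3 * e ^ 2 := by
        rw [hsl]
        have e1 : (cv d).toAffine.addX x e (y / (x - e)) = (y / (x - e)) ^ 2 - x - e := by
          simp [Affine.addX, cv]
        rw [e1]
        have e0 : (y / (x - e)) ^ 2 * (x - e) = y ^ 2 / (x - e) := by
          field_simp
        have e2 : ((y / (x - e)) ^ 2 - x - e - e) * (x - e) =
            y ^ 2 / (x - e) - (x + 2 * e) * (x - e) := by
          linear_combination e0
        rw [e2, hy]
        have e3 : x ^ 3 + d ^ 3 = (x ^ 2 + e * x + e ^ 2) * (x - e) := by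
          linear_combination he
        rw [e3, mul_div_cancel_right₀ _ hxe1]
        ring
      have hX2 := congrArg V hX
      rw [map_mul, map_mul, map_pow, hroot1 e he, h3] at hX2
      generalize (cv d).toAffine.addX x e ((cv d).toAffine.slope x e y 0) = X at hX2 ⊢
      have hX3 : 1 ≤ V (X - e) := by
        by_contra hc
        push Not at hc
        have h5 : V (X - e) * V (x - e) ≤ V (X - e) * exp (-2 : ℤ) := mul_le_mul_right hxe _
        rw [hX2] at h5
        have h6 : V (X - e) * exp (-2 : ℤ) < 1 * exp (-2 : ℤ) :=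
          mul_lt_mul_of_pos_right hc WithZero.exp_pos
        rw [one_mul] at h6
        exact lt_irrefl _ (h5.trans_lt h6)
      rw [val_root V hz hs he c0 hX3]
      exact hX3
  have hcard : Nat.card (Fin 4) = Nat.card ((cv d).toAffine.Point ⧸ nsG V (cv d)) :=
    Nat.card_congr (Equiv.ofBijective _ ⟨hinj, hsurj⟩)
  rw [AddSubgroup.index, ← hcard, Nat.card_eq_fintype_card, Fintype.card_fin]

open TamFour in
/-- The index is four at a place where `3` is a unit and `d` is not. -/
theorem index_four_e {L : Type*} [Field L] [CharZero L] {z d : L} (V : Valuation L ℤᵐ⁰)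
    (hz : z ^ 2 + z + 1 = 0) (h3 : V 3 = 1) (hd1 : V d < 1)
    (hs : V ((1 + 2 * z) * d) = exp (-1 : ℤ)) : (nsG V (cv d)).index = 4 := by
  have h21 : V (2 : L) ≤ 1 := by
    have e3 : (2 : L) = 1 + 1 := by norm_num
    rw [e3]
    exact (Valuation.map_add _ _ _).trans (max_le (map_one V).le (map_one V).le)
  have hx : ∀ x : L, 1 ≤ V (x - -d) → 1 ≤ V x := by
    intro x h
    by_contra hc
    push Not at hc
    have h1 : V (x - -d) < 1 := by
      refine (Valuation.map_sub _ _ _).trans_lt (max_lt hc ?_)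
      rw [Valuation.map_neg]; exact hd1
    exact absurd h (not_le.2 h1)
  have hx' : ∀ x : L, 1 ≤ V x → 1 ≤ V (x - -d) := by
    intro x h
    rw [Valuation.map_sub_eq_of_lt_left V (by rw [Valuation.map_neg]; exact hd1.trans_le h)]
    exact h
  refine index_four_of V hz hs ?_ ?_
  · intro x y h hxd
    refine Or.inr ⟨x, y, h, rfl, ?_⟩
    rcases (hx x hxd).lt_or_eq with h1 | h1
    · exact Or.inl h1
    · right; right
      have e1 : 3 * x ^ 2 + 2 * (cv d).a₂ * x + (cv d).a₄ - (cv d).a₁ * y = 3 * x ^ 2 := by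
        simp [cv]
      rw [e1, map_mul, map_pow, h3, ← h1, one_pow, one_mul]
  · intro x y h hP
    apply hx'
    rcases hP with h0 | ⟨x', y', h', hxy, hcase⟩
    · exact absurd h0 (Affine.Point.some_ne_zero _)
    obtain ⟨rfl, rfl⟩ := (Affine.Point.some.injEq ..).mp hxy
    by_contra hlt
    push Not at hlt
    rcases hcase with h1 | h1 | h1
    · exact absurd h1 (not_lt.2 hlt.le)
    · have e1 : 2 * y + (cv d).a₁ * x + (cv d).a₃ = 2 * y := by simp [cv]
      rw [e1, map_mul] at h1
      have hy := congrArg V ((eqn_iff rfl x y).1 h.1)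
      rw [map_pow] at hy
      have h5 : V (x ^ 3 + d ^ 3) < 1 := by
        refine (Valuation.map_add _ _ _).trans_lt (max_lt ?_ ?_)
        · rw [map_pow]; exact pow_lt_one₀ zero_le hlt (by norm_num)
        · rw [map_pow]; exact pow_lt_one₀ zero_le hd1 (by norm_num)
      rw [← hy] at h5
      have h6 : V y < 1 := by
        by_contra hc
        push Not at hc
        exact absurd h5 (not_lt.2 (one_le_pow₀ hc))
      have h7 : V (2 : L) * V y < 1 := mul_lt_one_of_nonneg_of_lt_one_right h21 zero_le h6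
      rw [h1] at h7
      exact lt_irrefl _ h7
    · have e1 : 3 * x ^ 2 + 2 * (cv d).a₂ * x + (cv d).a₄ - (cv d).a₁ * y = 3 * x ^ 2 := by
        simp [cv]
      rw [e1, map_mul, map_pow, h3, one_mul] at h1
      have h4 : V x ^ 2 < 1 := pow_lt_one₀ zero_le hlt (by norm_num)
      rw [h1] at h4
      exact lt_irrefl _ h4

end Pool.Agent.Lib.MP_1a91b9_ntH.C
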